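import Pool.Agent.Lib.MP_6be952_lc.Proof

/-! Sanity check for the calculus: it is sound and complete for MTL-algebras. -/

namespace Pool.Agent.Lib.MP_6be952_lc

section Derivations
variable {Ax G : Set Fm}

theorem Deriv.trans {p q r : Fm} (h1 : Deriv Ax G (.imp p q)) (h2 : Deriv Ax G (.imp q r)) :
    Deriv Ax G (.imp p r) := .mp h2 (.mp h1 (.mtl (.a1 p q r)))

theorem Deriv.curry {p q r : Fm} (h : Deriv Ax G (.imp (.mul p q) r)) :
    Deriv Ax G (.imp p (.imp q r)) := .mp h (.mtl (.a7b p q r))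

theorem Deriv.uncurry {p q r : Fm} (h : Deriv Ax G (.imp p (.imp q r))) :
    Deriv Ax G (.imp (.mul p q) r) := .mp h (.mtl (.a7a p q r))

theorem Deriv.K (p q : Fm) : Deriv Ax G (.imp p (.imp q p)) := (Deriv.mtl (.a2 p q)).curry

theorem Deriv.exch {p q r : Fm} (h : Deriv Ax G (.imp p (.imp q r))) :
    Deriv Ax G (.imp q (.imp p r)) := ((Deriv.mtl (.a3 q p)).trans h.uncurry).curry

theorem Deriv.I (p : Fm) : Deriv Ax G (.imp p p) :=
  .mp (.mtl (.a9 .zero)) ((Deriv.K p (.imp .zero .zero)).exch)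

theorem Deriv.adj (p q : Fm) : Deriv Ax G (.imp p (.imp q (.mul p q))) := (Deriv.I _).curry

theorem Deriv.mono {p p' q q' : Fm} (h1 : Deriv Ax G (.imp p p')) (h2 : Deriv Ax G (.imp q q')) :
    Deriv Ax G (.imp (.mul p q) (.mul p' q')) :=
  (h2.trans (h1.trans (Deriv.adj p' q')).exch).exch.uncurry

theorem Deriv.andl (p q : Fm) : Deriv Ax G (.imp (.and p q) p) := .mtl (.a4 p q)

theorem Deriv.andr (p q : Fm) : Deriv Ax G (.imp (.and p q) q) :=
  (Deriv.mtl (.a5 p q)).trans (.mtl (.a4 q p))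

theorem Deriv.andI {p q r : Fm} (h1 : Deriv Ax G (.imp r p)) (h2 : Deriv Ax G (.imp r q)) :
    Deriv Ax G (.imp r (.and p q)) := by
  have e1 : Deriv Ax G (.imp (.imp p q) (.imp r (.and p q))) :=
    (h1.trans (Deriv.mtl (.a6 p q)).curry).exch
  have e2 : Deriv Ax G (.imp (.imp q p) (.imp r (.and p q))) :=
    (h2.trans (((Deriv.mtl (.a6 q p)).trans (.mtl (.a5 q p))).curry)).exch
  exact .mp e2 (.mp e1 (.mtl (.a8 p q _)))

theorem Deriv.monoR {p q r : Fm} (h : Deriv Ax G (.imp q r)) :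
    Deriv Ax G (.imp (.imp p q) (.imp p r)) := .mp h (Deriv.mtl (.a1 p q r)).exch

theorem Deriv.orl (p q : Fm) : Deriv Ax G (.imp p (.or p q)) :=
  (Deriv.andI (Deriv.I (.imp p q)).exch (Deriv.K p (.imp q p))).trans (.mtl (.or2 p q))

theorem Deriv.orr (p q : Fm) : Deriv Ax G (.imp q (.or p q)) :=
  (Deriv.andI (Deriv.K q (.imp p q)) (Deriv.I (.imp q p)).exch).trans (.mtl (.or2 p q))

theorem Deriv.orE {p q r : Fm} (h1 : Deriv Ax G (.imp p r)) (h2 : Deriv Ax G (.imp q r)) :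
    Deriv Ax G (.imp (.or p q) r) := by
  have e1 : Deriv Ax G (.imp (.imp p q) (.imp (.or p q) r)) :=
    (((Deriv.mtl (.or1 p q)).trans (Deriv.andl _ _)).trans (Deriv.monoR h2)).exch
  have e2 : Deriv Ax G (.imp (.imp q p) (.imp (.or p q) r)) :=
    (((Deriv.mtl (.or1 p q)).trans (Deriv.andr _ _)).trans (Deriv.monoR h1)).exch
  exact .mp e2 (.mp e1 (.mtl (.a8 p q _)))

theorem Deriv.oneI : Deriv Ax G .one := .mp (.mtl (.a9 .zero)) (.mtl .one2)

end Derivations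

variable (Ax G : Set Fm)

def lstd : Setoid Fm where
  r p q := Deriv Ax G (.imp p q) ∧ Deriv Ax G (.imp q p)
  iseqv :=
    { refl := fun p => ⟨.I p, .I p⟩
      symm := fun h => ⟨h.2, h.1⟩
      trans := fun h1 h2 => ⟨h1.1.trans h2.1, h2.2.trans h1.2⟩ }

/-- The Lindenbaum algebra. -/
def Lind : Type := Quotient (lstd Ax G)

def Lind.mk (p : Fm) : Lind Ax G := Quotient.mk (lstd Ax G) p

theorem Lind.rep (x : Lind Ax G) : ∃ p, Lind.mk Ax G p = x := Quotient.exists_rep x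

theorem Lind.mk_eq (p q : Fm) : Lind.mk Ax G p = Lind.mk Ax G q ↔
    Deriv Ax G (.imp p q) ∧ Deriv Ax G (.imp q p) :=
  ⟨fun h => Quotient.exact h, fun h => Quotient.sound h⟩

instance : LE (Lind Ax G) where
  le := Quotient.lift₂ (fun p q => Deriv Ax G (.imp p q)) (by
    rintro a₁ b₁ a₂ b₂ ⟨h1, h2⟩ ⟨h3, h4⟩
    exact propext ⟨fun h => (h2.trans h).trans h3, fun h => (h1.trans h).trans h4⟩)

theorem Lind.mk_le (p q : Fm) : Lind.mk Ax G p ≤ Lind.mk Ax G q ↔ Deriv Ax G (.imp p q) :=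
  Iff.rfl

def Lind.inf : Lind Ax G → Lind Ax G → Lind Ax G :=
  Quotient.map₂ Fm.and (by
    rintro a₁ b₁ ⟨h1, h2⟩ a₂ b₂ ⟨h3, h4⟩
    exact ⟨.andI ((Deriv.andl _ _).trans h1) ((Deriv.andr _ _).trans h3),
      .andI ((Deriv.andl _ _).trans h2) ((Deriv.andr _ _).trans h4)⟩)

def Lind.sup : Lind Ax G → Lind Ax G → Lind Ax G :=
  Quotient.map₂ Fm.or (by
    rintro a₁ b₁ ⟨h1, h2⟩ a₂ b₂ ⟨h3, h4⟩
    exact ⟨.orE (h1.trans (.orl _ _)) (h3.trans (.orr _ _)),
      .orE (h2.trans (.orl _ _)) (h4.trans (.orr _ _))⟩)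

def Lind.mul : Lind Ax G → Lind Ax G → Lind Ax G :=
  Quotient.map₂ Fm.mul (by
    rintro a₁ b₁ ⟨h1, h2⟩ a₂ b₂ ⟨h3, h4⟩
    exact ⟨.mono h1 h3, .mono h2 h4⟩)

def Lind.res : Lind Ax G → Lind Ax G → Lind Ax G :=
  Quotient.map₂ Fm.imp (by
    rintro a₁ b₁ ⟨h1, h2⟩ a₂ b₂ ⟨h3, h4⟩
    refine ⟨(Deriv.mp h2 (.mtl (.a1 _ _ _))).trans (Deriv.monoR h3),
      (Deriv.mp h1 (.mtl (.a1 _ _ _))).trans (Deriv.monoR h4)⟩)

instance : Lattice (Lind Ax G) where
  inf := Lind.inf Ax G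
  sup := Lind.sup Ax G
  le_refl x := by
    obtain ⟨p, rfl⟩ := Lind.rep Ax G x
    exact (Lind.mk_le Ax G p p).2 (.I p)
  le_trans x y z h1 h2 := by
    obtain ⟨p, rfl⟩ := Lind.rep Ax G x
    obtain ⟨q, rfl⟩ := Lind.rep Ax G y
    obtain ⟨r, rfl⟩ := Lind.rep Ax G z
    exact (Lind.mk_le Ax G p r).2 (((Lind.mk_le Ax G p q).1 h1).trans ((Lind.mk_le Ax G q r).1 h2))
  le_antisymm x y h1 h2 := by
    obtain ⟨p, rfl⟩ := Lind.rep Ax G x
    obtain ⟨q, rfl⟩ := Lind.rep Ax G y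
    exact (Lind.mk_eq Ax G p q).2 ⟨h1, h2⟩
  le_sup_left x y := by
    obtain ⟨p, rfl⟩ := Lind.rep Ax G x
    obtain ⟨q, rfl⟩ := Lind.rep Ax G y
    exact Deriv.orl (Ax := Ax) (G := G) p q
  le_sup_right x y := by
    obtain ⟨p, rfl⟩ := Lind.rep Ax G x
    obtain ⟨q, rfl⟩ := Lind.rep Ax G y
    exact Deriv.orr (Ax := Ax) (G := G) p q
  sup_le x y z h1 h2 := by
    obtain ⟨p, rfl⟩ := Lind.rep Ax G x
    obtain ⟨q, rfl⟩ := Lind.rep Ax G y
    obtain ⟨r, rfl⟩ := Lind.rep Ax G z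
    exact Deriv.orE ((Lind.mk_le Ax G p r).1 h1) ((Lind.mk_le Ax G q r).1 h2)
  inf_le_left x y := by
    obtain ⟨p, rfl⟩ := Lind.rep Ax G x
    obtain ⟨q, rfl⟩ := Lind.rep Ax G y
    exact Deriv.andl (Ax := Ax) (G := G) p q
  inf_le_right x y := by
    obtain ⟨p, rfl⟩ := Lind.rep Ax G x
    obtain ⟨q, rfl⟩ := Lind.rep Ax G y
    exact Deriv.andr (Ax := Ax) (G := G) p q
  le_inf x y z h1 h2 := by
    obtain ⟨p, rfl⟩ := Lind.rep Ax G x
    obtain ⟨q, rfl⟩ := Lind.rep Ax G y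
    obtain ⟨r, rfl⟩ := Lind.rep Ax G z
    exact Deriv.andI ((Lind.mk_le Ax G p q).1 h1) ((Lind.mk_le Ax G p r).1 h2)

instance : BoundedOrder (Lind Ax G) where
  top := Lind.mk Ax G .one
  bot := Lind.mk Ax G .zero
  le_top x := by
    obtain ⟨p, rfl⟩ := Lind.rep Ax G x
    exact (Lind.mk_le Ax G p .one).2 (.mp .oneI (.K .one p))
  bot_le x := by
    obtain ⟨p, rfl⟩ := Lind.rep Ax G x
    exact (Lind.mk_le Ax G .zero p).2 (.mtl (.a9 p))

instance : CommMonoid (Lind Ax G) where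
  mul := Lind.mul Ax G
  one := Lind.mk Ax G .one
  mul_assoc x y z := by
    obtain ⟨p, rfl⟩ := Lind.rep Ax G x
    obtain ⟨q, rfl⟩ := Lind.rep Ax G y
    obtain ⟨r, rfl⟩ := Lind.rep Ax G z
    refine (Lind.mk_eq Ax G (.mul (.mul p q) r) (.mul p (.mul q r))).2 ⟨?_, ?_⟩
    · apply Deriv.uncurry
      apply Deriv.uncurry
      have h1 := (Deriv.adj (Ax := Ax) (G := G) p (.mul q r))
      have h2 : Deriv Ax G (.imp (.imp (.mul q r) (.mul p (.mul q r)))
        (.imp q (.imp r (.mul p (.mul q r))))) := .mtl (.a7b _ _ _)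
      exact h1.trans h2
    · have h1 : Deriv Ax G (.imp p (.imp q (.imp r (.mul (.mul p q) r)))) :=
        (Deriv.adj (.mul p q) r).curry
      have h2 : Deriv Ax G (.imp (.imp q (.imp r (.mul (.mul p q) r)))
        (.imp (.mul q r) (.mul (.mul p q) r))) := .mtl (.a7a _ _ _)
      exact (h1.trans h2).uncurry
  mul_comm x y := by
    obtain ⟨p, rfl⟩ := Lind.rep Ax G x
    obtain ⟨q, rfl⟩ := Lind.rep Ax G y
    exact (Lind.mk_eq Ax G (.mul p q) (.mul q p)).2 ⟨.mtl (.a3 _ _), .mtl (.a3 _ _)⟩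
  one_mul x := by
    obtain ⟨p, rfl⟩ := Lind.rep Ax G x
    exact (Lind.mk_eq Ax G (.mul .one p) p).2
      ⟨(Deriv.mtl (.a3 _ _)).trans (.mtl (.a2 _ _)), .mp .oneI (.adj _ _)⟩
  mul_one x := by
    obtain ⟨p, rfl⟩ := Lind.rep Ax G x
    exact (Lind.mk_eq Ax G (.mul p .one) p).2
      ⟨.mtl (.a2 _ _), .mp .oneI (Deriv.adj _ _).exch⟩

instance : MTLAlg (Lind Ax G) where
  res := Lind.res Ax G
  le_res x y z := by
    obtain ⟨p, rfl⟩ := Lind.rep Ax G x
    obtain ⟨q, rfl⟩ := Lind.rep Ax G y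
    obtain ⟨r, rfl⟩ := Lind.rep Ax G z
    constructor
    · intro h
      have h' : Deriv Ax G (.imp r (.imp p q)) := h
      exact h'.exch.uncurry
    · intro h
      have h' : Deriv Ax G (.imp (.mul p r) q) := h
      exact h'.curry.exch
  one_top := rfl
  prelin x y := by
    obtain ⟨p, rfl⟩ := Lind.rep Ax G x
    obtain ⟨q, rfl⟩ := Lind.rep Ax G y
    refine (Lind.mk_eq Ax G (.or (.imp p q) (.imp q p)) .one).2 ⟨.mp .oneI (.K _ _), ?_⟩
    refine .mp ?_ (.K _ _)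
    exact .mp (.orr _ _) (.mp (.orl _ _) (.mtl (.a8 p q _)))

theorem Lind.eval_mk (s : ℕ → Fm) (p : Fm) :
    eval (fun n => Lind.mk Ax G (s n)) p = Lind.mk Ax G (p.subst s) := by
  induction p with
  | var n => rfl
  | zero => rfl
  | one => rfl
  | and a b iha ihb => simp only [eval, iha, ihb]; rfl
  | or a b iha ihb => simp only [eval, iha, ihb]; rfl
  | mul a b iha ihb => simp only [eval, iha, ihb]; rfl
  | imp a b iha ihb => simp only [eval, iha, ihb]; rfl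

theorem Fm.subst_var (p : Fm) : p.subst Fm.var = p := by
  induction p with
  | var n => rfl
  | zero => rfl
  | one => rfl
  | and a b iha ihb => simp only [Fm.subst, iha, ihb]
  | or a b iha ihb => simp only [Fm.subst, iha, ihb]
  | mul a b iha ihb => simp only [Fm.subst, iha, ihb]
  | imp a b iha ihb => simp only [Fm.subst, iha, ihb]

theorem Lind.mk_top (p : Fm) : Lind.mk Ax G p = ⊤ ↔ Deriv Ax G p := by
  rw [show (⊤ : Lind Ax G) = Lind.mk Ax G .one from rfl, Lind.mk_eq]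
  constructor
  · intro h; exact .mp .oneI h.2
  · intro h; exact ⟨.mp .oneI (.K _ _), .mp h (.K _ _)⟩

variable {Ax G}

/-- Soundness and completeness of the extended calculi for MTL-algebras. -/
theorem deriv_iff (hAx : ∀ p ∈ Ax, ∀ s : ℕ → Fm, p.subst s ∈ Ax) (p : Fm) :
    Deriv Ax G p ↔ ∀ (M : Type) [MTLAlg M], (∀ a ∈ Ax, ∀ w : ℕ → M, eval w a = ⊤) →
      ∀ v : ℕ → M, (∀ q ∈ G, eval v q = ⊤) → eval v p = ⊤ := by
  constructor
  · intro h M _ h1 v h2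
    exact sound h v (fun a ha => h1 a ha v) h2
  · intro h
    have h1 := h (Lind Ax G) (by
      intro a ha w
      choose s hs using fun n => Lind.rep Ax G (w n)
      have hw : w = fun n => Lind.mk Ax G (s n) := by
        funext n; exact (hs n).symm
      rw [hw, Lind.eval_mk, Lind.mk_top]
      exact .ext (hAx a ha s)) (fun n => Lind.mk Ax G (.var n)) (by
      intro q hq
      rw [Lind.eval_mk, Fm.subst_var, Lind.mk_top]
      exact .hyp hq)
    rw [Lind.eval_mk, Fm.subst_var, Lind.mk_top] at h1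
    exact h1

end Pool.Agent.Lib.MP_6be952_lc
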