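import Mathlib

namespace Pool.Agent.Lib.MP_6be952_lc

/-- Propositional formulas in the language with meet, join, fusion, implication, 0, 1. -/
inductive Fm : Type
  | var : ℕ → Fm
  | zero : Fm
  | one : Fm
  | and : Fm → Fm → Fm
  | or : Fm → Fm → Fm
  | mul : Fm → Fm → Fm
  | imp : Fm → Fm → Fm

/-- The set of variables occurring in a formula. -/
def Fm.vars : Fm → Set ℕ
  | .var n => {n}
  | .zero => ∅
  | .one => ∅
  | .and a b => a.vars ∪ b.vars
  | .or a b => a.vars ∪ b.vars
  | .mul a b => a.vars ∪ b.vars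
  | .imp a b => a.vars ∪ b.vars

/-- The set of variables occurring in a set of formulas. -/
def varsOf (G : Set Fm) : Set ℕ := {n | ∃ a ∈ G, n ∈ a.vars}

/-- Simultaneous substitution. -/
def Fm.subst (s : ℕ → Fm) : Fm → Fm
  | .var n => s n
  | .zero => .zero
  | .one => .one
  | .and a b => .and (a.subst s) (b.subst s)
  | .or a b => .or (a.subst s) (b.subst s)
  | .mul a b => .mul (a.subst s) (b.subst s)
  | .imp a b => .imp (a.subst s) (b.subst s)

/-- The axioms of the standard Hilbert calculus of MTL (Esteva and Godo), together with the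
usual explicit definitions of join and 1, which are primitive symbols here. -/
inductive MTLAxiom : Fm → Prop
  | a1 (p q r : Fm) : MTLAxiom (.imp (.imp p q) (.imp (.imp q r) (.imp p r)))
  | a2 (p q : Fm) : MTLAxiom (.imp (.mul p q) p)
  | a3 (p q : Fm) : MTLAxiom (.imp (.mul p q) (.mul q p))
  | a4 (p q : Fm) : MTLAxiom (.imp (.and p q) p)
  | a5 (p q : Fm) : MTLAxiom (.imp (.and p q) (.and q p))
  | a6 (p q : Fm) : MTLAxiom (.imp (.mul p (.imp p q)) (.and p q))
  | a7a (p q r : Fm) : MTLAxiom (.imp (.imp p (.imp q r)) (.imp (.mul p q) r))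
  | a7b (p q r : Fm) : MTLAxiom (.imp (.imp (.mul p q) r) (.imp p (.imp q r)))
  | a8 (p q r : Fm) : MTLAxiom (.imp (.imp (.imp p q) r) (.imp (.imp (.imp q p) r) r))
  | a9 (p : Fm) : MTLAxiom (.imp .zero p)
  | or1 (p q : Fm) : MTLAxiom
      (.imp (.or p q) (.and (.imp (.imp p q) q) (.imp (.imp q p) p)))
  | or2 (p q : Fm) : MTLAxiom
      (.imp (.and (.imp (.imp p q) q) (.imp (.imp q p) p)) (.or p q))
  | one1 : MTLAxiom (.imp .one (.imp .zero .zero))
  | one2 : MTLAxiom (.imp (.imp .zero .zero) .one)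

/-- Derivability from the hypotheses `G` in the Hilbert calculus of MTL with the additional
axioms `Ax`, modus ponens being the only rule. -/
inductive Deriv (Ax : Set Fm) (G : Set Fm) : Fm → Prop
  | mtl {p : Fm} : MTLAxiom p → Deriv Ax G p
  | ext {p : Fm} : p ∈ Ax → Deriv Ax G p
  | hyp {p : Fm} : p ∈ G → Deriv Ax G p
  | mp {p q : Fm} : Deriv Ax G p → Deriv Ax G (.imp p q) → Deriv Ax G q

/-- A consequence relation is an axiomatic extension of MTL if it is derivability in the calculus
of MTL extended by a substitution-closed set of additional axioms. -/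
def IsAxiomaticExtension (C : Set Fm → Fm → Prop) : Prop :=
  ∃ Ax : Set Fm, (∀ p ∈ Ax, ∀ s : ℕ → Fm, p.subst s ∈ Ax) ∧ C = Deriv Ax

/-- The deductive interpolation property. -/
def DIP (C : Set Fm → Fm → Prop) : Prop :=
  ∀ (G : Set Fm) (p : Fm), C G p →
    ∃ D : Set Fm, varsOf D ⊆ varsOf G ∩ p.vars ∧ (∀ d ∈ D, C G d) ∧ C D p

end Pool.Agent.Lib.MP_6be952_lc
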