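import Pool.Agent.Lib.MP_6be952_lc.Defs

set_option linter.unusedSectionVars false

namespace Pool.Agent.Lib.MP_6be952_lc

/-! ### MTL-algebras and soundness -/

/-- MTL-algebras. -/
class MTLAlg (M : Type*) extends Lattice M, BoundedOrder M, CommMonoid M where
  res : M → M → M
  le_res : ∀ x y z : M, z ≤ res x y ↔ x * z ≤ y
  one_top : (1 : M) = ⊤
  prelin : ∀ x y : M, res x y ⊔ res y x = ⊤

section Sound
variable {M : Type*} [MTLAlg M]
open MTLAlg

/-- Evaluation of formulas. -/
def eval (v : ℕ → M) : Fm → M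
  | .var n => v n
  | .zero => ⊥
  | .one => ⊤
  | .and a b => eval v a ⊓ eval v b
  | .or a b => eval v a ⊔ eval v b
  | .mul a b => eval v a * eval v b
  | .imp a b => res (eval v a) (eval v b)

theorem top_mul' (x : M) : ⊤ * x = x := by rw [← one_top, one_mul]
theorem mul_top' (x : M) : x * ⊤ = x := by rw [← one_top, mul_one]

theorem res_top_iff (x y : M) : res x y = ⊤ ↔ x ≤ y := by
  rw [← top_le_iff, le_res, mul_top']

theorem mul_res_le (x y : M) : x * res x y ≤ y := (le_res x y _).1 le_rfl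

theorem mul_le_mul_l {x y : M} (z : M) (h : x ≤ y) : x * z ≤ y * z := by
  rw [mul_comm, ← le_res]
  refine h.trans ?_
  rw [le_res, mul_comm]

theorem mul_le_mul_r {x y : M} (z : M) (h : x ≤ y) : z * x ≤ z * y := by
  rw [mul_comm z x, mul_comm z y]; exact mul_le_mul_l z h

theorem mul_le_l (x y : M) : x * y ≤ x := by
  have := mul_le_mul_r x (le_top : y ≤ ⊤)
  rwa [mul_top'] at this

theorem mul_le_r (x y : M) : x * y ≤ y := by rw [mul_comm]; exact mul_le_l y x

theorem mul_sup' (x y z : M) : x * (y ⊔ z) ≤ x * y ⊔ x * z := by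
  rw [← le_res]
  exact sup_le ((le_res _ _ _).2 le_sup_left) ((le_res _ _ _).2 le_sup_right)

theorem sound_axiom {p : Fm} (h : MTLAxiom p) (v : ℕ → M) : eval v p = ⊤ := by
  cases h with
  | a1 p q r =>
    simp only [eval]
    rw [res_top_iff, le_res, le_res]
    set a := eval v p
    set b := eval v q
    set c := eval v r
    calc a * (res b c * res a b) = (a * res a b) * res b c := by
          rw [mul_comm (res b c), mul_assoc]
      _ ≤ b * res b c := mul_le_mul_l _ (mul_res_le _ _)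
      _ ≤ c := mul_res_le _ _
  | a2 p q => simp only [eval]; rw [res_top_iff]; exact mul_le_l _ _
  | a3 p q => simp only [eval]; rw [res_top_iff, mul_comm]
  | a4 p q => simp only [eval]; rw [res_top_iff]; exact inf_le_left
  | a5 p q => simp only [eval]; rw [res_top_iff, inf_comm]
  | a6 p q =>
    simp only [eval]; rw [res_top_iff]; exact le_inf (mul_le_l _ _) (mul_res_le _ _)
  | a7a p q r =>
    simp only [eval]; rw [res_top_iff, le_res]
    set a := eval v p
    set b := eval v q
    set c := eval v r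
    calc (a * b) * res a (res b c) = b * (a * res a (res b c)) := by
          rw [mul_comm a b, mul_assoc]
      _ ≤ b * res b c := mul_le_mul_r _ (mul_res_le _ _)
      _ ≤ c := mul_res_le _ _
  | a7b p q r =>
    simp only [eval]; rw [res_top_iff, le_res, le_res]
    set a := eval v p
    set b := eval v q
    set c := eval v r
    calc b * (a * res (a * b) c) = (a * b) * res (a * b) c := by
          rw [← mul_assoc, mul_comm b a]
      _ ≤ c := mul_res_le _ _
  | a8 p q r =>
    simp only [eval]; rw [res_top_iff, le_res]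
    set a := eval v p
    set b := eval v q
    set c := eval v r
    set X := res (res a b) c
    set Y := res (res b a) c
    have h1 : (Y * X) * (res a b ⊔ res b a) ≤ c := by
      refine (mul_sup' _ _ _).trans (sup_le ?_ ?_)
      · refine (mul_le_mul_l _ (mul_le_r Y X)).trans ?_
        rw [mul_comm]; exact mul_res_le _ _
      · refine (mul_le_mul_l _ (mul_le_l Y X)).trans ?_
        rw [mul_comm]; exact mul_res_le _ _
    rwa [prelin, mul_top'] at h1
  | a9 p => simp only [eval]; rw [res_top_iff]; exact bot_le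
  | or1 p q =>
    simp only [eval]; rw [res_top_iff]
    refine le_inf (sup_le ?_ ?_) (sup_le ?_ ?_)
    · rw [le_res, mul_comm]; exact mul_res_le _ _
    · rw [le_res]; exact mul_le_r _ _
    · rw [le_res]; exact mul_le_r _ _
    · rw [le_res, mul_comm]; exact mul_res_le _ _
  | or2 p q =>
    simp only [eval]; rw [res_top_iff]
    set a := eval v p
    set b := eval v q
    have h1 : (res (res a b) b ⊓ res (res b a) a) * (res a b ⊔ res b a) ≤ a ⊔ b := by
      refine (mul_sup' _ _ _).trans (sup_le ?_ ?_)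
      · refine (mul_le_mul_l _ inf_le_left).trans ?_
        rw [mul_comm]; exact (mul_res_le _ _).trans le_sup_right
      · refine (mul_le_mul_l _ inf_le_right).trans ?_
        rw [mul_comm]; exact (mul_res_le _ _).trans le_sup_left
    rwa [prelin, mul_top'] at h1
  | one1 => simp only [eval]; rw [res_top_iff, (res_top_iff _ _).2 le_rfl]
  | one2 => simp only [eval]; rw [res_top_iff, (res_top_iff _ _).2 le_rfl]

theorem sound {Ax G : Set Fm} {p : Fm} (h : Deriv Ax G p) (v : ℕ → M)
    (hAx : ∀ a ∈ Ax, eval v a = ⊤) (hG : ∀ a ∈ G, eval v a = ⊤) : eval v p = ⊤ := by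
  induction h with
  | mtl h => exact sound_axiom h v
  | ext h => exact hAx _ h
  | hyp h => exact hG _ h
  | mp _ _ ih1 ih2 =>
    simp only [eval] at ih2
    rw [res_top_iff, ih1, top_le_iff] at ih2
    exact ih2

end Sound

/-! ### The chains A(L) -/

/-- The carrier of the chain `A(L)`. -/
inductive A (L : Type) : Type
  | lo : L → A L
  | hi : L → A L
  | b : A L
  | h : A L
  | g : A L
  | f : A L
  | t : A L

namespace A

variable {L : Type} [LinearOrder L] [BoundedOrder L] [SuccOrder L] [PredOrder L]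

def rank : A L → ℕ
  | lo _ => 0
  | hi _ => 1
  | b => 2
  | h => 3
  | g => 4
  | f => 5
  | t => 6

def idx : A L → L
  | lo i => i
  | hi i => i
  | b => ⊥
  | h => ⊥
  | g => ⊥
  | f => ⊥
  | t => ⊥

def key (x : A L) : ℕ ×ₗ L := toLex (rank x, idx x)

theorem key_inj : Function.Injective (key (L := L)) := by
  intro x y hxy
  have h1 : (rank x, idx x) = (rank y, idx y) := toLex.injective hxy
  rw [Prod.mk.injEq] at h1
  cases x <;> cases y <;> simp_all [rank, idx]

noncomputable instance : LinearOrder (A L) := LinearOrder.lift' key key_inj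

theorem le_def (x y : A L) : x ≤ y ↔ rank x < rank y ∨ (rank x = rank y ∧ idx x ≤ idx y) := by
  change key x ≤ key y ↔ _
  rw [key, key, Prod.Lex.toLex_le_toLex]

theorem lt_def (x y : A L) : x < y ↔ rank x < rank y ∨ (rank x = rank y ∧ idx x < idx y) := by
  change key x < key y ↔ _
  rw [key, key, Prod.Lex.toLex_lt_toLex]

instance : BoundedOrder (A L) where
  top := t
  bot := lo ⊥
  le_top x := by cases x <;> simp [le_def, rank, idx]
  bot_le x := by cases x <;> simp [le_def, rank, idx]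

theorem top_eq : (⊤ : A L) = t := rfl
theorem bot_eq : (⊥ : A L) = lo ⊥ := rfl

def mul : A L → A L → A L
  | t, y => y
  | x, t => x
  | f, hi i => lo i
  | hi i, f => lo i
  | g, hi i => lo (Order.pred i)
  | hi i, g => lo (Order.pred i)
  | lo _, _ => lo ⊥
  | _, lo _ => lo ⊥
  | hi _, _ => lo ⊥
  | _, hi _ => lo ⊥
  | f, f => h
  | _, _ => b

noncomputable def imp' : A L → A L → A L
  | t, y => y
  | f, lo j => hi j
  | f, hi _ => hi ⊤
  | f, b => g
  | f, _ => f
  | g, lo j => hi (Order.succ j)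
  | g, hi _ => hi ⊤
  | g, _ => f
  | h, lo _ => hi ⊤
  | h, hi _ => hi ⊤
  | h, _ => f
  | b, _ => hi ⊤
  | hi i, lo j => if i ≤ j then f else if Order.pred i ≤ j then g else h
  | _, _ => f

noncomputable def imp (x y : A L) : A L := if x ≤ y then t else imp' x y

theorem mul_comm' (x y : A L) : mul x y = mul y x := by
  cases x <;> cases y <;> rfl

theorem t_mul (x : A L) : mul t x = x := by cases x <;> rfl

theorem mul_assoc' (x y z : A L) : mul (mul x y) z = mul x (mul y z) := by
  cases x <;> cases y <;> cases z <;> rfl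

theorem mul_le_left' (x y : A L) : mul x y ≤ x := by
  cases x <;> cases y <;> simp [mul, le_def, rank, idx, Order.pred_le]

theorem le_imp (x y z : A L) : z ≤ imp x y ↔ mul x z ≤ y := by
  unfold imp
  split_ifs with hxy
  · exact ⟨fun _ => (mul_le_left' x z).trans hxy, fun _ => le_top⟩
  · rw [le_def] at hxy
    cases x <;> cases y <;> simp only [rank, idx, imp'] at hxy ⊢ <;>
      first
      | (exfalso; simp at hxy; done)
      | (cases z <;> simp [mul, le_def, rank, idx, Order.pred_le_iff_le_succ]; done)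
      | skip
    · rename_i i j
      have hij : j < i := by simpa using hxy
      cases z <;> simp [mul, le_def, rank, idx, hij]
    · rename_i i j
      split_ifs with h1 h2
      · cases z <;> simp [mul, le_def, rank, idx, h1, (Order.pred_le i).trans h1]
      · cases z <;> simp [mul, le_def, rank, idx, h1, h2]
      · cases z <;> simp [mul, le_def, rank, idx, h1, h2]
    · rename_i i j
      have hij : j < i := by simpa using hxy
      cases z <;> simp [mul, le_def, rank, idx, hij]

end A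



namespace A

section Inst
variable {L : Type} [LinearOrder L] [BoundedOrder L] [SuccOrder L] [PredOrder L]

instance : CommMonoid (A L) where
  mul := mul
  one := t
  mul_assoc := mul_assoc'
  mul_comm := mul_comm'
  one_mul := t_mul
  mul_one x := (mul_comm' x t).trans (t_mul x)

theorem mul_def (x y : A L) : x * y = mul x y := rfl

noncomputable instance : MTLAlg (A L) where
  res := imp
  le_res x y z := le_imp x y z
  one_top := rfl
  prelin x y := by
    rcases le_total x y with h | h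
    · have : imp x y = ⊤ := by simp [imp, h, top_eq]
      rw [this]; exact top_sup_eq _
    · have : imp y x = ⊤ := by simp [imp, h, top_eq]
      rw [this]; exact sup_top_eq _

theorem res_def (x y : A L) : MTLAlg.res x y = imp x y := rfl

end Inst

/-- The homomorphism onto the two-element subalgebra. -/
def rho {L L' : Type} [LinearOrder L'] [BoundedOrder L'] : A L → A L'
  | lo _ => lo ⊥
  | hi _ => lo ⊥
  | _ => t

/-- Homomorphisms. -/
structure Hom (M N : Type*) [MTLAlg M] [MTLAlg N] where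
  toFun : M → N
  map_bot : toFun ⊥ = ⊥
  map_top : toFun ⊤ = ⊤
  map_inf : ∀ x y, toFun (x ⊓ y) = toFun x ⊓ toFun y
  map_sup : ∀ x y, toFun (x ⊔ y) = toFun x ⊔ toFun y
  map_mul : ∀ x y, toFun (x * y) = toFun x * toFun y
  map_res : ∀ x y, toFun (MTLAlg.res x y) = MTLAlg.res (toFun x) (toFun y)

theorem Hom.eval {M N : Type*} [MTLAlg M] [MTLAlg N] (F : Hom M N) (v : ℕ → M) (p : Fm) :
    MP_6be952_lc.eval (fun n => F.toFun (v n)) p = F.toFun (MP_6be952_lc.eval v p) := by
  induction p with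
  | var n => rfl
  | zero => simp only [MP_6be952_lc.eval, F.map_bot]
  | one => simp only [MP_6be952_lc.eval, F.map_top]
  | and a b iha ihb => simp only [MP_6be952_lc.eval, F.map_inf, iha, ihb]
  | or a b iha ihb => simp only [MP_6be952_lc.eval, F.map_sup, iha, ihb]
  | mul a b iha ihb => simp only [MP_6be952_lc.eval, F.map_mul, iha, ihb]
  | imp a b iha ihb => simp only [MP_6be952_lc.eval, F.map_res, iha, ihb]

section Rho
variable {L L' : Type} [LinearOrder L] [BoundedOrder L] [SuccOrder L] [PredOrder L]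
    [LinearOrder L'] [BoundedOrder L'] [SuccOrder L'] [PredOrder L']

theorem rho_mono {x y : A L} (h : x ≤ y) : (rho x : A L') ≤ rho y := by
  rw [le_def] at h
  cases x <;> cases y <;> simp [rho, le_def, rank, idx] at h ⊢

def rhoHom : Hom (A L) (A L') where
  toFun := rho
  map_bot := rfl
  map_top := rfl
  map_inf x y := by
    rcases le_total x y with h | h
    · rw [inf_eq_left.2 h, inf_eq_left.2 (rho_mono h)]
    · rw [inf_eq_right.2 h, inf_eq_right.2 (rho_mono h)]
  map_sup x y := by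
    rcases le_total x y with h | h
    · rw [sup_eq_right.2 h, sup_eq_right.2 (rho_mono h)]
    · rw [sup_eq_left.2 h, sup_eq_left.2 (rho_mono h)]
  map_mul x y := by
    cases x <;> cases y <;> rfl
  map_res x y := by
    rw [res_def, res_def]
    unfold imp
    by_cases h : x ≤ y
    · rw [if_pos h, if_pos (rho_mono h)]; rfl
    · rw [if_neg h]
      rw [le_def] at h
      cases x <;> cases y <;> simp [rho, rank, idx, le_def, imp'] at h ⊢
      split_ifs <;> rfl

end Rho

end A


namespace A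

/-! ### Functoriality -/

/-- Embeddings of discrete bounded chains. -/
structure Emb (L L' : Type) [LinearOrder L] [BoundedOrder L] [SuccOrder L] [PredOrder L]
    [LinearOrder L'] [BoundedOrder L'] [SuccOrder L'] [PredOrder L'] where
  toFun : L → L'
  le_iff : ∀ i j, toFun i ≤ toFun j ↔ i ≤ j
  map_bot : toFun ⊥ = ⊥
  map_top : toFun ⊤ = ⊤
  map_succ : ∀ i, toFun (Order.succ i) = Order.succ (toFun i)
  map_pred : ∀ i, toFun (Order.pred i) = Order.pred (toFun i)

section Map
variable {L L' : Type} [LinearOrder L] [BoundedOrder L] [SuccOrder L] [PredOrder L]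
    [LinearOrder L'] [BoundedOrder L'] [SuccOrder L'] [PredOrder L']

def map (e : L → L') : A L → A L'
  | lo i => lo (e i)
  | hi i => hi (e i)
  | b => b
  | h => h
  | g => g
  | f => f
  | t => t

theorem map_le_iff (e : Emb L L') (x y : A L) : map e.toFun x ≤ map e.toFun y ↔ x ≤ y := by
  cases x <;> cases y <;> simp [map, le_def, rank, idx, e.le_iff]

def mapHom (e : Emb L L') : Hom (A L) (A L') where
  toFun := map e.toFun
  map_bot := by simp [bot_eq, map, e.map_bot]
  map_top := rfl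
  map_inf x y := by
    rcases le_total x y with h | h
    · rw [inf_eq_left.2 h, inf_eq_left.2 ((map_le_iff e _ _).2 h)]
    · rw [inf_eq_right.2 h, inf_eq_right.2 ((map_le_iff e _ _).2 h)]
  map_sup x y := by
    rcases le_total x y with h | h
    · rw [sup_eq_right.2 h, sup_eq_right.2 ((map_le_iff e _ _).2 h)]
    · rw [sup_eq_left.2 h, sup_eq_left.2 ((map_le_iff e _ _).2 h)]
  map_mul x y := by
    cases x <;> cases y <;> simp [mul_def, mul, map, e.map_bot, e.map_pred]
  map_res x y := by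
    rw [res_def, res_def]
    unfold imp
    by_cases h : x ≤ y
    · rw [if_pos h, if_pos ((map_le_iff e _ _).2 h)]; rfl
    · rw [if_neg h, if_neg (fun h' => h ((map_le_iff e _ _).1 h'))]
      cases x <;> cases y <;> simp [imp', map, e.map_top, e.map_succ, ← e.map_pred, e.le_iff]
      split_ifs <;> rfl

end Map

end A

/-! ### Formulas naming the constants -/

def fnot (p : Fm) : Fm := .imp p .zero
def fcube (p : Fm) : Fm := .mul p (.mul p p)
def fb (p : Fm) : Fm := .or (fcube p) (fcube (fnot p))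
def fz (p : Fm) : Fm := fnot (fb p)
def fh (p : Fm) : Fm := fnot (fz p)
def ff (p : Fm) : Fm := .imp (fh p) (fb p)
def fg (p : Fm) : Fm := .imp (ff p) (fb p)
def flt (p : Fm) : Fm := .mul (ff p) (fz p)
def fs (p q : Fm) : Fm := .mul (ff p) (.imp (fg p) q)
def fp (p q : Fm) : Fm := .mul (fg p) (.imp (ff p) q)

section Consts
open A
variable {L : Type} [LinearOrder L] [BoundedOrder L] [SuccOrder L] [PredOrder L]

theorem eval_top_iff_imp (v : ℕ → A L) (p q : Fm) :
    eval v (.imp p q) = ⊤ ↔ eval v p ≤ eval v q := res_top_iff _ _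

theorem eval_fnot (v : ℕ → A L) (p : Fm) : eval v (fnot p) = imp (eval v p) (lo ⊥) := rfl

theorem eval_fb {v : ℕ → A L} {p : Fm} (h1 : eval v p ≠ t) (h0 : eval v p ≠ lo ⊥) :
    eval v (fb p) = b := by
  have key : ∀ x : A L, x ≠ t → x ≠ lo ⊥ →
      (x * (x * x)) ⊔ (imp x (lo ⊥) * (imp x (lo ⊥) * imp x (lo ⊥))) = b := by
    intro x hx1 hx0
    have hlt : (lo ⊥ : A L) ≤ b := by simp [le_def, rank]
    cases x with
    | lo i =>
      have hi : i ≠ ⊥ := by
        intro hi; exact hx0 (by rw [hi])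
      simp [imp, le_def, rank, idx, imp', mul_def, mul, hi, hlt]
    | hi i =>
      simp [imp, le_def, rank, idx, imp', mul_def, mul]
    | b => simp [imp, le_def, rank, idx, imp', mul_def, mul, hlt]
    | h => simp [imp, le_def, rank, idx, imp', mul_def, mul, hlt]
    | g => simp [imp, le_def, rank, idx, imp', mul_def, mul, hlt]
    | f => simp [imp, le_def, rank, idx, imp', mul_def, mul, hlt]
    | t => exact absurd rfl hx1
  exact key _ h1 h0

theorem eval_fz {v : ℕ → A L} {p : Fm} (h1 : eval v p ≠ t) (h0 : eval v p ≠ lo ⊥) :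
    eval v (fz p) = hi ⊤ := by
  rw [fz, eval_fnot, eval_fb h1 h0]
  simp [imp, le_def, rank, idx, imp']

theorem eval_fh {v : ℕ → A L} {p : Fm} (hL : Order.pred (⊤ : L) ≠ ⊥)
    (h1 : eval v p ≠ t) (h0 : eval v p ≠ lo ⊥) :
    eval v (fh p) = h := by
  rw [fh, eval_fnot, eval_fz h1 h0]
  have hT : (⊤ : L) ≠ ⊥ := by
    intro hT
    apply hL
    rw [hT]; exact Order.pred_bot
  simp [imp, le_def, rank, idx, imp', hL, hT]

theorem eval_ff {v : ℕ → A L} {p : Fm} (hL : Order.pred (⊤ : L) ≠ ⊥)
    (h1 : eval v p ≠ t) (h0 : eval v p ≠ lo ⊥) :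
    eval v (ff p) = f := by
  change imp (eval v (fh p)) (eval v (fb p)) = f
  rw [eval_fh hL h1 h0, eval_fb h1 h0]
  simp [imp, le_def, rank, idx, imp']

theorem eval_fg {v : ℕ → A L} {p : Fm} (hL : Order.pred (⊤ : L) ≠ ⊥)
    (h1 : eval v p ≠ t) (h0 : eval v p ≠ lo ⊥) :
    eval v (fg p) = g := by
  change imp (eval v (ff p)) (eval v (fb p)) = g
  rw [eval_ff hL h1 h0, eval_fb h1 h0]
  simp [imp, le_def, rank, idx, imp']

theorem eval_flt {v : ℕ → A L} {p : Fm} (hL : Order.pred (⊤ : L) ≠ ⊥)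
    (h1 : eval v p ≠ t) (h0 : eval v p ≠ lo ⊥) :
    eval v (flt p) = lo ⊤ := by
  change mul (eval v (ff p)) (eval v (fz p)) = _
  rw [eval_ff hL h1 h0, eval_fz h1 h0]; rfl

theorem imp_g_lo (i : L) : imp g (lo i) = hi (Order.succ i) := by
  simp [imp, le_def, rank, idx, imp']

theorem imp_f_lo (i : L) : imp f (lo i) = hi i := by
  simp [imp, le_def, rank, idx, imp']

theorem eval_fs {v : ℕ → A L} {p q : Fm} {i : L} (hL : Order.pred (⊤ : L) ≠ ⊥)
    (h1 : eval v p ≠ t) (h0 : eval v p ≠ lo ⊥) (hq : eval v q = lo i) :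
    eval v (fs p q) = lo (Order.succ i) := by
  change mul (eval v (ff p)) (imp (eval v (fg p)) (eval v q)) = _
  rw [eval_ff hL h1 h0, eval_fg hL h1 h0, hq, imp_g_lo]; rfl

theorem eval_fp {v : ℕ → A L} {p q : Fm} {i : L} (hL : Order.pred (⊤ : L) ≠ ⊥)
    (h1 : eval v p ≠ t) (h0 : eval v p ≠ lo ⊥) (hq : eval v q = lo i) :
    eval v (fp p q) = lo (Order.pred i) := by
  change mul (eval v (fg p)) (imp (eval v (ff p)) (eval v q)) = _
  rw [eval_ff hL h1 h0, eval_fg hL h1 h0, hq, imp_f_lo]; rfl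

end Consts




/-! ### Ultraproducts -/

section Ultra
variable {I : Type} (U : Ultrafilter I) (L : I → Type)

def ustd : Setoid (∀ i, L i) where
  r x y := ∀ᶠ i in (U : Filter I), x i = y i
  iseqv :=
    { refl := fun _ => Filter.Eventually.of_forall fun _ => rfl
      symm := fun h => h.mono fun _ h => h.symm
      trans := fun h1 h2 => by filter_upwards [h1, h2] with i h1 h2 using h1.trans h2 }

def UP : Type := Quotient (ustd U L)

variable {L}

def UP.mk (x : ∀ i, L i) : UP U L := Quotient.mk (ustd U L) x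

theorem UP.mk_eq (x y : ∀ i, L i) : UP.mk U x = UP.mk U y ↔ ∀ᶠ i in (U : Filter I), x i = y i :=
  ⟨fun h => Quotient.exact h, fun h => Quotient.sound h⟩

theorem UP.ind {p : UP U L → Prop} (h : ∀ x, p (UP.mk U x)) (a : UP U L) : p a :=
  Quotient.ind h a

theorem UP.rep (a : UP U L) : ∃ x, UP.mk U x = a := Quotient.exists_rep a

variable [∀ i, LinearOrder (L i)]

instance : LE (UP U L) where
  le := Quotient.lift₂ (fun x y => ∀ᶠ i in (U : Filter I), x i ≤ y i) (by
    intro a₁ b₁ a₂ b₂ h1 h2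
    have h1' : ∀ᶠ i in (U : Filter I), a₁ i = a₂ i := h1
    have h2' : ∀ᶠ i in (U : Filter I), b₁ i = b₂ i := h2
    refine propext ⟨fun h => ?_, fun h => ?_⟩
    · filter_upwards [h, h1', h2'] with i h h1 h2; rw [← h1, ← h2]; exact h
    · filter_upwards [h, h1', h2'] with i h h1 h2; rw [h1, h2]; exact h)

theorem UP.mk_le (x y : ∀ i, L i) : UP.mk U x ≤ UP.mk U y ↔ ∀ᶠ i in (U : Filter I), x i ≤ y i :=
  Iff.rfl

noncomputable instance : LinearOrder (UP U L) where
  le_refl := UP.ind U fun x => (UP.mk_le U _ _).2 (Filter.Eventually.of_forall fun _ => le_rfl)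
  le_trans := UP.ind U fun x => UP.ind U fun y => UP.ind U fun z => by
    intro h1 h2
    rw [UP.mk_le] at *
    filter_upwards [h1, h2] with i h1 h2 using h1.trans h2
  le_antisymm := UP.ind U fun x => UP.ind U fun y => by
    intro h1 h2
    rw [UP.mk_le] at *
    rw [UP.mk_eq]
    filter_upwards [h1, h2] with i h1 h2 using le_antisymm h1 h2
  le_total := UP.ind U fun x => UP.ind U fun y => by
    rw [UP.mk_le, UP.mk_le, ← Ultrafilter.eventually_or]
    exact Filter.Eventually.of_forall fun i => le_total _ _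
  toDecidableLE := Classical.decRel _

theorem UP.mk_lt (x y : ∀ i, L i) : UP.mk U x < UP.mk U y ↔ ∀ᶠ i in (U : Filter I), x i < y i := by
  rw [← not_le, UP.mk_le, ← Ultrafilter.eventually_not]
  simp only [not_le]

variable [∀ i, BoundedOrder (L i)]

instance : BoundedOrder (UP U L) where
  top := UP.mk U fun _ => ⊤
  bot := UP.mk U fun _ => ⊥
  le_top := UP.ind U fun _ => (UP.mk_le U _ _).2 (Filter.Eventually.of_forall fun _ => le_top)
  bot_le := UP.ind U fun _ => (UP.mk_le U _ _).2 (Filter.Eventually.of_forall fun _ => bot_le)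

theorem UP.top_def : (⊤ : UP U L) = UP.mk U fun _ => ⊤ := rfl
theorem UP.bot_def : (⊥ : UP U L) = UP.mk U fun _ => ⊥ := rfl

variable [∀ i, SuccOrder (L i)] [∀ i, PredOrder (L i)]

def usucc : UP U L → UP U L :=
  Quotient.map (fun x i => Order.succ (x i)) (by
    intro a b h
    have h' : ∀ᶠ i in (U : Filter I), a i = b i := h
    change ∀ᶠ i in (U : Filter I), _
    filter_upwards [h'] with i h; rw [h])

def upred : UP U L → UP U L :=
  Quotient.map (fun x i => Order.pred (x i)) (by
    intro a b h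
    have h' : ∀ᶠ i in (U : Filter I), a i = b i := h
    change ∀ᶠ i in (U : Filter I), _
    filter_upwards [h'] with i h; rw [h])

theorem le_usucc (a : UP U L) : a ≤ usucc U a := by
  obtain ⟨x, rfl⟩ := UP.rep U a
  exact (UP.mk_le U x _).2 (Filter.Eventually.of_forall fun _ => Order.le_succ _)

theorem upred_le (a : UP U L) : upred U a ≤ a := by
  obtain ⟨x, rfl⟩ := UP.rep U a
  exact (UP.mk_le U _ x).2 (Filter.Eventually.of_forall fun _ => Order.pred_le _)

theorem max_of_usucc_le (a : UP U L) : usucc U a ≤ a → IsMax a := by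
  obtain ⟨x, rfl⟩ := UP.rep U a
  intro h
  have h1 : ∀ᶠ i in (U : Filter I), Order.succ (x i) ≤ x i := h
  have h2 : UP.mk U x = ⊤ := by
    rw [UP.top_def, UP.mk_eq]
    filter_upwards [h1] with i h1
    exact isMax_iff_eq_top.1 (Order.max_of_succ_le h1)
  rw [h2]; exact isMax_top

theorem min_of_le_upred (a : UP U L) : a ≤ upred U a → IsMin a := by
  obtain ⟨x, rfl⟩ := UP.rep U a
  intro h
  have h1 : ∀ᶠ i in (U : Filter I), x i ≤ Order.pred (x i) := h
  have h2 : UP.mk U x = ⊥ := by
    rw [UP.bot_def, UP.mk_eq]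
    filter_upwards [h1] with i h1
    exact isMin_iff_eq_bot.1 (Order.min_of_le_pred h1)
  rw [h2]; exact isMin_bot

theorem usucc_le_of_lt (a b : UP U L) : a < b → usucc U a ≤ b := by
  obtain ⟨x, rfl⟩ := UP.rep U a
  obtain ⟨y, rfl⟩ := UP.rep U b
  intro h
  rw [UP.mk_lt] at h
  refine (UP.mk_le U (fun i => Order.succ (x i)) y).2 ?_
  filter_upwards [h] with i h using Order.succ_le_of_lt h

theorem le_upred_of_lt (a b : UP U L) : a < b → a ≤ upred U b := by
  obtain ⟨x, rfl⟩ := UP.rep U a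
  obtain ⟨y, rfl⟩ := UP.rep U b
  intro h
  rw [UP.mk_lt] at h
  refine (UP.mk_le U x (fun i => Order.pred (y i))).2 ?_
  filter_upwards [h] with i h using Order.le_pred_of_lt h

instance : SuccOrder (UP U L) where
  succ := usucc U
  le_succ := le_usucc U
  max_of_succ_le {a} := max_of_usucc_le U a
  succ_le_of_lt {a b} := usucc_le_of_lt U a b

instance : PredOrder (UP U L) where
  pred := upred U
  pred_le := upred_le U
  min_of_le_pred {a} := min_of_le_upred U a
  le_pred_of_lt {a b} := le_upred_of_lt U a b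

theorem UP.succ_mk (x : ∀ i, L i) :
    Order.succ (UP.mk U x) = UP.mk U fun i => Order.succ (x i) := rfl

theorem UP.pred_mk (x : ∀ i, L i) :
    Order.pred (UP.mk U x) = UP.mk U fun i => Order.pred (x i) := rfl

theorem UP.succ_iter_mk (x : ∀ i, L i) (n : ℕ) :
    Order.succ^[n] (UP.mk U x) = UP.mk U fun i => Order.succ^[n] (x i) := by
  induction n with
  | zero => rfl
  | succ n ih =>
    rw [Function.iterate_succ_apply', ih, UP.succ_mk]
    simp only [Function.iterate_succ_apply']

open A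

theorem exists_rank (x : ∀ i, A (L i)) : ∃ n, ∀ᶠ i in (U : Filter I), rank (x i) = n := by
  have h1 : ∀ᶠ i in (U : Filter I), ∃ n : Fin 7, rank (x i) = n := by
    refine Filter.Eventually.of_forall fun i => ?_
    cases x i
    · exact ⟨0, rfl⟩
    · exact ⟨1, rfl⟩
    · exact ⟨2, rfl⟩
    · exact ⟨3, rfl⟩
    · exact ⟨4, rfl⟩
    · exact ⟨5, rfl⟩
    · exact ⟨6, rfl⟩
  rw [Ultrafilter.eventually_exists_iff] at h1
  obtain ⟨n, hn⟩ := h1
  exact ⟨n, hn⟩

noncomputable def urank (x : ∀ i, A (L i)) : ℕ := (exists_rank U x).choose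

theorem urank_spec (x : ∀ i, A (L i)) : ∀ᶠ i in (U : Filter I), rank (x i) = urank U x :=
  (exists_rank U x).choose_spec

theorem urank_eq {x : ∀ i, A (L i)} {n : ℕ} (h : ∀ᶠ i in (U : Filter I), rank (x i) = n) :
    urank U x = n := by
  obtain ⟨i, h1, h2⟩ := (h.and (urank_spec U x)).exists
  rw [← h1, h2]

def mkA {K : Type} (n : ℕ) (j : K) : A K :=
  match n with
  | 0 => lo j
  | 1 => hi j
  | 2 => b
  | 3 => h
  | 4 => g
  | 5 => f
  | _ => t

noncomputable def Phi (x : ∀ i, A (L i)) : A (UP U L) :=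
  mkA (urank U x) (UP.mk U fun i => idx (x i))

theorem Phi_congr {x y : ∀ i, A (L i)} (h : ∀ᶠ i in (U : Filter I), x i = y i) :
    Phi U x = Phi U y := by
  have h1 : urank U x = urank U y := by
    apply urank_eq
    filter_upwards [h, urank_spec U y] with i h1 h2; rw [h1, h2]
  have h2 : (UP.mk U fun i => idx (x i)) = (UP.mk U fun i => idx (y i)) := by
    rw [UP.mk_eq]
    filter_upwards [h] with i h; rw [h]
  rw [Phi, Phi, h1, h2]

theorem Phi_lo (z : ∀ i, L i) : Phi U (fun i => lo (z i)) = lo (UP.mk U z) := by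
  rw [Phi, urank_eq U (n := 0) (Filter.Eventually.of_forall fun _ => rfl)]; rfl
theorem Phi_hi (z : ∀ i, L i) : Phi U (fun i => hi (z i)) = hi (UP.mk U z) := by
  rw [Phi, urank_eq U (n := 1) (Filter.Eventually.of_forall fun _ => rfl)]; rfl
theorem Phi_b : Phi U (fun i => (b : A (L i))) = b := by
  rw [Phi, urank_eq U (n := 2) (Filter.Eventually.of_forall fun _ => rfl)]; rfl
theorem Phi_h : Phi U (fun i => (h : A (L i))) = h := by
  rw [Phi, urank_eq U (n := 3) (Filter.Eventually.of_forall fun _ => rfl)]; rfl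
theorem Phi_g : Phi U (fun i => (g : A (L i))) = g := by
  rw [Phi, urank_eq U (n := 4) (Filter.Eventually.of_forall fun _ => rfl)]; rfl
theorem Phi_f : Phi U (fun i => (f : A (L i))) = f := by
  rw [Phi, urank_eq U (n := 5) (Filter.Eventually.of_forall fun _ => rfl)]; rfl
theorem Phi_t : Phi U (fun i => (t : A (L i))) = t := by
  rw [Phi, urank_eq U (n := 6) (Filter.Eventually.of_forall fun _ => rfl)]; rfl

theorem Phi_cases (x : ∀ i, A (L i)) :
    (∃ z : ∀ i, L i, ∀ᶠ i in (U : Filter I), x i = lo (z i)) ∨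
    (∃ z : ∀ i, L i, ∀ᶠ i in (U : Filter I), x i = hi (z i)) ∨
    (∀ᶠ i in (U : Filter I), x i = b) ∨ (∀ᶠ i in (U : Filter I), x i = h) ∨
    (∀ᶠ i in (U : Filter I), x i = g) ∨ (∀ᶠ i in (U : Filter I), x i = f) ∨
    (∀ᶠ i in (U : Filter I), x i = t) := by
  have h0 := urank_spec U x
  have h1 : ∀ᶠ i in (U : Filter I), x i = lo (idx (x i)) ∨ x i = hi (idx (x i)) ∨ x i = b ∨
      x i = h ∨ x i = g ∨ x i = f ∨ x i = t := by
    refine Filter.Eventually.of_forall fun i => ?_
    cases x i <;> simp [idx]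
  simp only [Ultrafilter.eventually_or] at h1
  rcases h1 with h1 | h1 | h1
  · exact Or.inl ⟨_, h1⟩
  · exact Or.inr (Or.inl ⟨_, h1⟩)
  · exact Or.inr (Or.inr h1)

theorem Phi_le (x y : ∀ i, A (L i)) : Phi U x ≤ Phi U y ↔ ∀ᶠ i in (U : Filter I), x i ≤ y i := by
  have hU : (U : Filter I) ≠ ⊥ := U.neBot.ne
  rcases Phi_cases U x with ⟨z, hx⟩ | ⟨z, hx⟩ | hx | hx | hx | hx | hx <;>
  rcases Phi_cases U y with ⟨w, hy⟩ | ⟨w, hy⟩ | hy | hy | hy | hy | hy <;>
  · rw [Phi_congr U hx, Phi_congr U hy]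
    have e : (∀ᶠ i in (U : Filter I), x i ≤ y i) ↔ ∀ᶠ i in (U : Filter I), _ ≤ _ :=
      Filter.eventually_congr (by
        filter_upwards [hx, hy] with i h1 h2
        rw [h1, h2])
    rw [e]
    simp [Phi_lo, Phi_hi, Phi_b, Phi_h, Phi_g, Phi_f, Phi_t, le_def, rank, idx, UP.mk_le, hU]

theorem Phi_bot : Phi U (fun i => (⊥ : A (L i))) = ⊥ := Phi_lo U _

theorem Phi_top : Phi U (fun i => (⊤ : A (L i))) = ⊤ := Phi_t U

theorem Phi_mul_congr {x y x' y' : ∀ i, A (L i)} (hx : ∀ᶠ i in (U : Filter I), x i = x' i)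
    (hy : ∀ᶠ i in (U : Filter I), y i = y' i) :
    Phi U (fun i => x i * y i) = Phi U (fun i => x' i * y' i) := by
  apply Phi_congr
  filter_upwards [hx, hy] with i h1 h2
  rw [h1, h2]

theorem Phi_mul (x y : ∀ i, A (L i)) : Phi U (fun i => x i * y i) = Phi U x * Phi U y := by
  have hbot : Phi U (fun i => lo (⊥ : L i)) = lo ⊥ := Phi_lo U _
  have hpred : ∀ z : ∀ i, L i, Phi U (fun i => lo (Order.pred (z i))) =
      lo (Order.pred (UP.mk U z)) := fun z => Phi_lo U _
  rcases Phi_cases U x with ⟨z, hx⟩ | ⟨z, hx⟩ | hx | hx | hx | hx | hx <;>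
  rcases Phi_cases U y with ⟨w, hy⟩ | ⟨w, hy⟩ | hy | hy | hy | hy | hy <;>
  · rw [Phi_mul_congr U hx hy, Phi_congr U hx, Phi_congr U hy]
    simp only [Phi_lo, Phi_hi, Phi_b, Phi_h, Phi_g, Phi_f, Phi_t, mul_def, mul, hbot, hpred]

theorem Phi_surj (c : A (UP U L)) : ∃ x : ∀ i, A (L i), Phi U x = c := by
  cases c with
  | lo q =>
    obtain ⟨x, rfl⟩ := UP.rep U q
    exact ⟨_, Phi_lo U x⟩
  | hi q =>
    obtain ⟨x, rfl⟩ := UP.rep U q
    exact ⟨_, Phi_hi U x⟩
  | b => exact ⟨_, Phi_b U⟩
  | h => exact ⟨_, Phi_h U⟩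
  | g => exact ⟨_, Phi_g U⟩
  | f => exact ⟨_, Phi_f U⟩
  | t => exact ⟨_, Phi_t U⟩

theorem Phi_inf (x y : ∀ i, A (L i)) : Phi U (fun i => x i ⊓ y i) = Phi U x ⊓ Phi U y := by
  apply le_antisymm
  · apply le_inf
    · rw [Phi_le]; exact Filter.Eventually.of_forall fun i => inf_le_left
    · rw [Phi_le]; exact Filter.Eventually.of_forall fun i => inf_le_right
  · obtain ⟨z, hz⟩ := Phi_surj U (Phi U x ⊓ Phi U y)
    have h1 : Phi U z ≤ Phi U x := by rw [hz]; exact inf_le_left
    have h2 : Phi U z ≤ Phi U y := by rw [hz]; exact inf_le_right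
    rw [← hz, Phi_le]
    rw [Phi_le] at h1 h2
    filter_upwards [h1, h2] with i h1 h2 using le_inf h1 h2

theorem Phi_sup (x y : ∀ i, A (L i)) : Phi U (fun i => x i ⊔ y i) = Phi U x ⊔ Phi U y := by
  apply le_antisymm
  · obtain ⟨z, hz⟩ := Phi_surj U (Phi U x ⊔ Phi U y)
    have h1 : Phi U x ≤ Phi U z := by rw [hz]; exact le_sup_left
    have h2 : Phi U y ≤ Phi U z := by rw [hz]; exact le_sup_right
    rw [← hz, Phi_le]
    rw [Phi_le] at h1 h2
    filter_upwards [h1, h2] with i h1 h2 using sup_le h1 h2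
  · apply sup_le
    · rw [Phi_le]; exact Filter.Eventually.of_forall fun i => le_sup_left
    · rw [Phi_le]; exact Filter.Eventually.of_forall fun i => le_sup_right

theorem Phi_res (x y : ∀ i, A (L i)) :
    Phi U (fun i => MTLAlg.res (x i) (y i)) = MTLAlg.res (Phi U x) (Phi U y) := by
  apply le_antisymm
  · rw [MTLAlg.le_res, ← Phi_mul, Phi_le]
    exact Filter.Eventually.of_forall fun i => mul_res_le _ _
  · obtain ⟨z, hz⟩ := Phi_surj U (MTLAlg.res (Phi U x) (Phi U y))
    have h1 : Phi U x * Phi U z ≤ Phi U y := by rw [hz]; exact mul_res_le _ _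
    rw [← hz, Phi_le]
    rw [← Phi_mul, Phi_le] at h1
    filter_upwards [h1] with i h1 using (MTLAlg.le_res _ _ _).2 h1

theorem Phi_eval (v : ∀ i, ℕ → A (L i)) (p : Fm) :
    eval (fun n => Phi U fun i => v i n) p = Phi U fun i => eval (v i) p := by
  induction p with
  | var n => rfl
  | zero => exact (Phi_bot U).symm
  | one => exact (Phi_top U).symm
  | and a b iha ihb => simp only [eval, iha, ihb, ← Phi_inf]
  | or a b iha ihb => simp only [eval, iha, ihb, ← Phi_sup]
  | mul a b iha ihb => simp only [eval, iha, ihb, ← Phi_mul]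
  | imp a b iha ihb => simp only [eval, iha, ihb, ← Phi_res]

theorem Phi_eval_top (v : ∀ i, ℕ → A (L i)) (p : Fm) :
    eval (fun n => Phi U fun i => v i n) p = ⊤ ↔ ∀ᶠ i in (U : Filter I), eval (v i) p = ⊤ := by
  rw [Phi_eval, ← top_le_iff, ← Phi_top U, Phi_le]
  simp only [top_le_iff]

end Ultra

/-- The condition on `L` singled out by the set `S`. -/
def Good (S : Set ℕ) (L : Type) [LinearOrder L] [BoundedOrder L] [SuccOrder L] [PredOrder L] :
    Prop :=
  Order.pred (⊤ : L) ≠ ⊥ ∧
    ∀ n : ℕ, Order.succ^[n + 2] (⊥ : L) = ⊤ → Order.succ^[n + 1] (⊥ : L) ≠ ⊤ → n ∈ S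

theorem Good.ultra {S : Set ℕ} {I : Type} (U : Ultrafilter I) {L : I → Type}
    [∀ i, LinearOrder (L i)] [∀ i, BoundedOrder (L i)] [∀ i, SuccOrder (L i)]
    [∀ i, PredOrder (L i)] (h : ∀ i, Good S (L i)) : Good S (UP U L) := by
  refine ⟨?_, ?_⟩
  · intro h1
    rw [UP.top_def, UP.pred_mk, UP.bot_def, UP.mk_eq] at h1
    obtain ⟨i, hi⟩ := h1.exists
    exact (h i).1 hi
  · intro n h1 h2
    rw [UP.bot_def, UP.top_def, UP.succ_iter_mk, UP.mk_eq] at h1
    rw [UP.bot_def, UP.top_def, UP.succ_iter_mk, Ne, UP.mk_eq, ← Ultrafilter.eventually_not] at h2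
    obtain ⟨i, hi1, hi2⟩ := (h1.and h2).exists
    exact (h i).2 n hi1 hi2

/-- Models. -/
structure Model (S : Set ℕ) where
  L : Type
  [lin : LinearOrder L]
  [bdd : BoundedOrder L]
  [suc : SuccOrder L]
  [prd : PredOrder L]
  good : Good S L
  v : ℕ → A L

attribute [instance] Model.lin Model.bdd Model.suc Model.prd

/-- Truth in a model. -/
def Model.sat {S : Set ℕ} (m : Model S) (p : Fm) : Prop := eval m.v p = ⊤

theorem compactness {S : Set ℕ} (P N : Set Fm)
    (hfin : ∀ F : Finset Fm, ∃ m : Model S, (∀ p ∈ F, p ∈ P → m.sat p) ∧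
      ∀ p ∈ F, p ∈ N → ¬ m.sat p) :
    ∃ m : Model S, (∀ p ∈ P, m.sat p) ∧ ∀ p ∈ N, ¬ m.sat p := by
  classical
  choose m hm1 hm2 using hfin
  let U : Ultrafilter (Finset Fm) := Ultrafilter.of Filter.atTop
  have hU : ∀ p : Fm, ∀ᶠ F in (U : Filter (Finset Fm)), p ∈ F := by
    intro p
    apply Ultrafilter.of_le Filter.atTop
    filter_upwards [Filter.eventually_ge_atTop {p}] with F hF
    exact hF (Finset.mem_singleton_self p)
  refine ⟨{ L := UP U fun F => (m F).L
            good := Good.ultra U fun F => (m F).good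
            v := fun n => Phi U fun F => (m F).v n }, ?_, ?_⟩
  · intro p hp
    refine (Phi_eval_top U (fun F => (m F).v) p).2 ?_
    filter_upwards [hU p] with F hF using hm1 F p hF hp
  · intro p hp h
    have h' := (Phi_eval_top U (fun F => (m F).v) p).1 h
    obtain ⟨F, hF1, hF2⟩ := (h'.and (hU p)).exists
    exact hm2 F p hF2 hp hF1




/-! ### Amalgamation of discrete bounded chains -/

/-- Graph of an isomorphism between subchains closed under the operations. -/
structure PIso (B C : Type) [LinearOrder B] [BoundedOrder B] [SuccOrder B] [PredOrder B]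
    [LinearOrder C] [BoundedOrder C] [SuccOrder C] [PredOrder C] where
  R : B → C → Prop
  bot : R ⊥ ⊥
  top : R ⊤ ⊤
  succ : ∀ {i j}, R i j → R (Order.succ i) (Order.succ j)
  pred : ∀ {i j}, R i j → R (Order.pred i) (Order.pred j)
  le_iff : ∀ {i j i' j'}, R i j → R i' j' → (i ≤ i' ↔ j ≤ j')

section Amal
variable {B C : Type} [LinearOrder B] [BoundedOrder B] [SuccOrder B] [PredOrder B]
    [LinearOrder C] [BoundedOrder C] [SuccOrder C] [PredOrder C]

/-- Carrier of the amalgam. -/
inductive AM (P : PIso B C) : Type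
  | inl : B → AM P
  | inr : (j : C) → (∀ i, ¬ P.R i j) → AM P

variable (P : PIso B C)

def PIso.below (j : C) (i : B) : Prop := ∃ a c, P.R a c ∧ j < c ∧ a ≤ i

def AM.le : AM P → AM P → Prop
  | .inl i, .inl i' => i ≤ i'
  | .inr j _, .inr j' _ => j ≤ j'
  | .inl i, .inr j _ => ¬ P.below j i
  | .inr j _, .inl i => P.below j i

theorem AM.le_refl' (x : AM P) : AM.le P x x := by
  rcases x with i | ⟨j, _⟩
  · exact le_refl i
  · exact le_refl j

theorem AM.le_trans' (x y z : AM P) (h1 : AM.le P x y) (h2 : AM.le P y z) : AM.le P x z := by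
  rcases x with x | x <;> rcases y with y | y <;> rcases z with z | z <;>
    simp only [AM.le] at h1 h2 ⊢
  · exact h1.trans h2
  · rintro ⟨a, c, hac, h3, h4⟩
    exact h2 ⟨a, c, hac, h3, h4.trans h1⟩
  · obtain ⟨a, c, hac, h3, h4⟩ := h2
    by_contra h5
    exact h1 ⟨a, c, hac, h3, h4.trans (not_le.1 h5).le⟩
  · rintro ⟨a, c, hac, h3, h4⟩
    exact h1 ⟨a, c, hac, h2.trans_lt h3, h4⟩
  · obtain ⟨a, c, hac, h3, h4⟩ := h1
    exact ⟨a, c, hac, h3, h4.trans h2⟩
  · obtain ⟨a, c, hac, h3, h4⟩ := h1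
    by_contra h5
    exact h2 ⟨a, c, hac, (not_le.1 h5).trans h3, h4⟩
  · obtain ⟨a, c, hac, h3, h4⟩ := h2
    exact ⟨a, c, hac, h1.trans_lt h3, h4⟩
  · exact h1.trans h2

theorem AM.le_antisymm' (x y : AM P) (h1 : AM.le P x y) (h2 : AM.le P y x) : x = y := by
  rcases x with x | x <;> rcases y with y | y <;> simp only [AM.le] at h1 h2
  · rw [le_antisymm h1 h2]
  · exact absurd h2 h1
  · exact absurd h1 h2
  · have := le_antisymm h1 h2
    subst this; rfl

theorem AM.le_total' (x y : AM P) : AM.le P x y ∨ AM.le P y x := by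
  rcases x with x | x <;> rcases y with y | y <;> simp only [AM.le]
  · exact le_total _ _
  · exact (Classical.em _).symm
  · exact Classical.em _
  · exact le_total _ _

noncomputable instance : LinearOrder (AM P) where
  le := AM.le P
  le_refl := AM.le_refl' P
  le_trans := AM.le_trans' P
  le_antisymm := AM.le_antisymm' P
  le_total := AM.le_total' P
  toDecidableLE := Classical.decRel _

theorem PIso.not_top {j : C} (hj : ∀ i, ¬ P.R i j) : j ≠ ⊤ := by
  rintro rfl; exact hj _ P.top

theorem PIso.not_bot {j : C} (hj : ∀ i, ¬ P.R i j) : j ≠ ⊥ := by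
  rintro rfl; exact hj _ P.bot

theorem PIso.succ_not {j : C} (hj : ∀ i, ¬ P.R i j) : ∀ i, ¬ P.R i (Order.succ j) := by
  intro i hi
  have h := P.pred hi
  rw [Order.pred_succ_of_not_isMax (by rw [isMax_iff_eq_top]; exact P.not_top hj)] at h
  exact hj _ h

theorem PIso.pred_not {j : C} (hj : ∀ i, ¬ P.R i j) : ∀ i, ¬ P.R i (Order.pred j) := by
  intro i hi
  have h := P.succ hi
  rw [Order.succ_pred_of_not_isMin (by rw [isMin_iff_eq_bot]; exact P.not_bot hj)] at h
  exact hj _ h

theorem PIso.ne {i : B} {c j : C} (h : P.R i c) (hj : ∀ i, ¬ P.R i j) : j ≠ c := by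
  rintro rfl; exact hj _ h

theorem AM.ll (i i' : B) : (AM.inl i : AM P) ≤ AM.inl i' ↔ i ≤ i' := Iff.rfl
theorem AM.rr (j j' : C) (h h') : (AM.inr j h : AM P) ≤ AM.inr j' h' ↔ j ≤ j' := Iff.rfl
theorem AM.lr (i : B) (j : C) (h) : (AM.inl i : AM P) ≤ AM.inr j h ↔ ¬ P.below j i := Iff.rfl
theorem AM.rl (i : B) (j : C) (h) : (AM.inr j h : AM P) ≤ AM.inl i ↔ P.below j i := Iff.rfl
theorem AM.ll' (i i' : B) : (AM.inl i : AM P) < AM.inl i' ↔ i < i' := by
  rw [← not_le, ← not_le, AM.ll]
theorem AM.rr' (j j' : C) (h h') : (AM.inr j h : AM P) < AM.inr j' h' ↔ j < j' := by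
  rw [← not_le, ← not_le, AM.rr]

instance : BoundedOrder (AM P) where
  top := AM.inl ⊤
  bot := AM.inl ⊥
  le_top x := by
    rcases x with x | ⟨x, hx⟩
    · exact (AM.ll P _ _).2 le_top
    · exact (AM.rl P _ _ _).2 ⟨⊤, ⊤, P.top, lt_top_iff_ne_top.2 (P.not_top hx), le_rfl⟩
  bot_le x := by
    rcases x with x | ⟨x, hx⟩
    · exact (AM.ll P _ _).2 bot_le
    · refine (AM.lr P _ _ _).2 ?_
      rintro ⟨a, c, hac, h3, h4⟩
      have : c ≤ ⊥ := (P.le_iff hac P.bot).1 h4
      exact absurd (h3.trans_le this) not_lt_bot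

def AM.succ : AM P → AM P
  | .inl i => .inl (Order.succ i)
  | .inr j h => .inr (Order.succ j) (P.succ_not h)

def AM.pred : AM P → AM P
  | .inl i => .inl (Order.pred i)
  | .inr j h => .inr (Order.pred j) (P.pred_not h)

instance : SuccOrder (AM P) where
  succ := AM.succ P
  le_succ x := by
    rcases x with x | ⟨x, hx⟩
    · exact (AM.ll P _ _).2 (Order.le_succ x)
    · exact (AM.rr P _ _ _ _).2 (Order.le_succ x)
  max_of_succ_le {x} h := by
    rcases x with x | ⟨x, hx⟩
    · have h1 : Order.succ x ≤ x := h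
      have h2 : x = ⊤ := isMax_iff_eq_top.1 (Order.max_of_succ_le h1)
      rw [h2]
      exact isMax_top (α := AM P)
    · have h1 : Order.succ x ≤ x := h
      exact absurd (isMax_iff_eq_top.1 (Order.max_of_succ_le h1)) (P.not_top hx)
  succ_le_of_lt {x y} h := by
    rcases x with x | ⟨x, hx⟩ <;> rcases y with y | ⟨y, hy⟩
    · rw [AM.ll'] at h
      exact (AM.ll P _ _).2 (Order.succ_le_of_lt h)
    · have h1 : ¬ P.below y x := h.le
      refine (AM.lr P _ _ _).2 ?_
      rintro ⟨a, c, hac, h3, h4⟩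
      apply h1
      by_cases hax : a ≤ x
      · exact ⟨a, c, hac, h3, hax⟩
      · have hxa : x < a := not_le.1 hax
        have hxm : ¬ IsMax x := fun hm => absurd (hm hxa.le) hax
        have hsa : a = Order.succ x := le_antisymm h4 (Order.succ_le_of_lt hxa)
        have hpa : Order.pred a = x := by rw [hsa, Order.pred_succ_of_not_isMax hxm]
        refine ⟨Order.pred a, Order.pred c, P.pred hac, ?_, hpa.le⟩
        exact lt_of_le_of_ne (Order.le_pred_of_lt h3) (P.ne (P.pred hac) hy)
    · have h1 : P.below x y := h.le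
      obtain ⟨a, c, hac, h3, h4⟩ := h1
      refine (AM.rl P _ _ _).2 ⟨a, c, hac, ?_, h4⟩
      exact lt_of_le_of_ne (Order.succ_le_of_lt h3) (P.ne hac (P.succ_not hx))
    · rw [AM.rr'] at h
      exact (AM.rr P _ _ _ _).2 (Order.succ_le_of_lt h)

instance : PredOrder (AM P) where
  pred := AM.pred P
  pred_le x := by
    rcases x with x | ⟨x, hx⟩
    · exact (AM.ll P _ _).2 (Order.pred_le x)
    · exact (AM.rr P _ _ _ _).2 (Order.pred_le x)
  min_of_le_pred {x} h := by
    rcases x with x | ⟨x, hx⟩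
    · have h1 : x ≤ Order.pred x := h
      have h2 : x = ⊥ := isMin_iff_eq_bot.1 (Order.min_of_le_pred h1)
      rw [h2]
      exact isMin_bot (α := AM P)
    · have h1 : x ≤ Order.pred x := h
      exact absurd (isMin_iff_eq_bot.1 (Order.min_of_le_pred h1)) (P.not_bot hx)
  le_pred_of_lt {x y} h := by
    rcases x with x | ⟨x, hx⟩ <;> rcases y with y | ⟨y, hy⟩
    · rw [AM.ll'] at h
      exact (AM.ll P _ _).2 (Order.le_pred_of_lt h)
    · have h1 : ¬ P.below y x := h.le
      refine (AM.lr P _ _ _).2 ?_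
      rintro ⟨a, c, hac, h3, h4⟩
      apply h1
      refine ⟨a, c, hac, ?_, h4⟩
      exact lt_of_le_of_ne (Order.le_of_pred_lt h3) (P.ne hac hy)
    · have h1 : P.below x y := h.le
      obtain ⟨a, c, hac, h3, h4⟩ := h1
      refine (AM.rl P _ _ _).2 ?_
      exact ⟨Order.pred a, Order.pred c, P.pred hac,
        lt_of_le_of_ne (Order.le_pred_of_lt h3) (P.ne (P.pred hac) hx), Order.pred_le_pred h4⟩
    · rw [AM.rr'] at h
      exact (AM.rr P _ _ _ _).2 (Order.le_pred_of_lt h)

def AM.embL : A.Emb B (AM P) where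
  toFun := AM.inl
  le_iff i j := AM.ll P i j
  map_bot := rfl
  map_top := rfl
  map_succ _ := rfl
  map_pred _ := rfl

open Classical in
noncomputable def AM.fromR (j : C) : AM P :=
  if h : ∃ i, P.R i j then AM.inl h.choose else AM.inr j (fun i hk => h ⟨i, hk⟩)

theorem AM.fromR_of {i : B} {j : C} (h : P.R i j) : AM.fromR P j = AM.inl i := by
  unfold AM.fromR
  have h' : ∃ i, P.R i j := ⟨i, h⟩
  rw [dif_pos h']
  have h2 : P.R h'.choose j := h'.choose_spec
  have : h'.choose = i :=
    le_antisymm ((P.le_iff h2 h).2 le_rfl) ((P.le_iff h h2).2 le_rfl)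
  rw [this]

theorem AM.fromR_not {j : C} (h : ∀ i, ¬ P.R i j) : AM.fromR P j = AM.inr j h := by
  unfold AM.fromR
  rw [dif_neg (fun ⟨i, hk⟩ => h i hk)]

theorem PIso.below_iff {i : B} {c j : C} (h : P.R i c) : P.below j i ↔ j < c := by
  constructor
  · rintro ⟨a, c', hac, h3, h4⟩
    exact h3.trans_le ((P.le_iff hac h).1 h4)
  · intro h'
    exact ⟨i, c, h, h', le_rfl⟩

noncomputable def AM.embR : A.Emb C (AM P) where
  toFun := AM.fromR P
  le_iff j j' := by
    by_cases h : ∃ i, P.R i j <;> by_cases h' : ∃ i, P.R i j'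
    · obtain ⟨i, hk⟩ := h
      obtain ⟨i', hk'⟩ := h'
      rw [AM.fromR_of P hk, AM.fromR_of P hk', AM.ll]
      exact P.le_iff hk hk'
    · obtain ⟨i, hk⟩ := h
      rw [AM.fromR_of P hk, AM.fromR_not P (fun i hk => h' ⟨i, hk⟩), AM.lr, P.below_iff hk, not_lt]
    · obtain ⟨i', hk'⟩ := h'
      rw [AM.fromR_of P hk', AM.fromR_not P (fun i hk => h ⟨i, hk⟩), AM.rl, P.below_iff hk']
      refine ⟨fun h => h.le, fun h2 => lt_of_le_of_ne h2 (P.ne hk' (fun i hk => h ⟨i, hk⟩))⟩
    · rw [AM.fromR_not P (fun i hk => h ⟨i, hk⟩), AM.fromR_not P (fun i hk => h' ⟨i, hk⟩), AM.rr]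
  map_bot := AM.fromR_of P P.bot
  map_top := AM.fromR_of P P.top
  map_succ j := by
    by_cases h : ∃ i, P.R i j
    · obtain ⟨i, hk⟩ := h
      rw [AM.fromR_of P hk, AM.fromR_of P (P.succ hk)]; rfl
    · have h' : ∀ i, ¬ P.R i j := fun i hk => h ⟨i, hk⟩
      rw [AM.fromR_not P h', AM.fromR_not P (P.succ_not h')]; rfl
  map_pred j := by
    by_cases h : ∃ i, P.R i j
    · obtain ⟨i, hk⟩ := h
      rw [AM.fromR_of P hk, AM.fromR_of P (P.pred hk)]; rfl
    · have h' : ∀ i, ¬ P.R i j := fun i hk => h ⟨i, hk⟩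
      rw [AM.fromR_not P h', AM.fromR_not P (P.pred_not h')]; rfl

end Amal

section GoodEmb
open A
variable {L L' : Type} [LinearOrder L] [BoundedOrder L] [SuccOrder L] [PredOrder L]
    [LinearOrder L'] [BoundedOrder L'] [SuccOrder L'] [PredOrder L']

theorem Emb.inj (e : Emb L L') {i j : L} (h : e.toFun i = e.toFun j) : i = j :=
  le_antisymm ((e.le_iff _ _).1 h.le) ((e.le_iff _ _).1 h.ge)

theorem Emb.iter (e : Emb L L') (n : ℕ) :
    e.toFun (Order.succ^[n] ⊥) = Order.succ^[n] ⊥ := by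
  induction n with
  | zero => exact e.map_bot
  | succ n ih => rw [Function.iterate_succ_apply', Function.iterate_succ_apply', e.map_succ, ih]

theorem Good.of_emb {S : Set ℕ} (e : Emb L L') (h : Good S L) : Good S L' := by
  refine ⟨?_, ?_⟩
  · intro h1
    apply h.1
    apply Emb.inj e
    rw [e.map_pred, e.map_top, e.map_bot, h1]
  · intro n h1 h2
    apply h.2 n
    · apply Emb.inj e
      rw [Emb.iter, e.map_top, h1]
    · intro h3
      apply h2
      rw [← Emb.iter e, h3, e.map_top]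

end GoodEmb



open A

/-! ### Evaluation depends only on the variables -/

theorem eval_congr {M : Type*} [MTLAlg M] {v w : ℕ → M} {p : Fm} (h : ∀ n ∈ p.vars, v n = w n) :
    eval v p = eval w p := by
  induction p with
  | var n => exact h n rfl
  | zero => rfl
  | one => rfl
  | and a b iha ihb =>
    simp only [eval, iha fun n hn => h n (Or.inl hn), ihb fun n hn => h n (Or.inr hn)]
  | or a b iha ihb =>
    simp only [eval, iha fun n hn => h n (Or.inl hn), ihb fun n hn => h n (Or.inr hn)]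
  | mul a b iha ihb =>
    simp only [eval, iha fun n hn => h n (Or.inl hn), ihb fun n hn => h n (Or.inr hn)]
  | imp a b iha ihb =>
    simp only [eval, iha fun n hn => h n (Or.inl hn), ihb fun n hn => h n (Or.inr hn)]

/-- The additional axioms of the logic attached to `S`. -/
def AxS (S : Set ℕ) : Set Fm := {p | ∀ m : Model S, m.sat p}

theorem eval_subst {M : Type*} [MTLAlg M] (v : ℕ → M) (s : ℕ → Fm) (p : Fm) :
    eval v (p.subst s) = eval (fun n => eval v (s n)) p := by
  induction p with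
  | var n => rfl
  | zero => rfl
  | one => rfl
  | and a b iha ihb => simp only [Fm.subst, eval, iha, ihb]
  | or a b iha ihb => simp only [Fm.subst, eval, iha, ihb]
  | mul a b iha ihb => simp only [Fm.subst, eval, iha, ihb]
  | imp a b iha ihb => simp only [Fm.subst, eval, iha, ihb]

theorem AxS_subst (S : Set ℕ) (p : Fm) (hp : p ∈ AxS S) (s : ℕ → Fm) : p.subst s ∈ AxS S := by
  intro m
  have := hp { L := m.L, good := m.good, v := fun n => eval m.v (s n) }
  unfold Model.sat at *
  rw [eval_subst]; exact this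

theorem soundS {S : Set ℕ} {G : Set Fm} {p : Fm} (h : Deriv (AxS S) G p) (m : Model S)
    (hG : ∀ q ∈ G, m.sat q) : m.sat p :=
  sound h m.v (fun _ hq => hq m) hG

/-! ### Finite conjunctions and disjunctions -/

def prod : List Fm → Fm
  | [] => .one
  | p :: l => .mul p (prod l)

def disj : List Fm → Fm
  | [] => .zero
  | p :: l => .or p (disj l)

theorem mul_top_iff {M : Type*} [MTLAlg M] (x y : M) : x * y = ⊤ ↔ x = ⊤ ∧ y = ⊤ := by
  constructor
  · intro h
    exact ⟨top_le_iff.1 (h ▸ mul_le_l x y), top_le_iff.1 (h ▸ mul_le_r x y)⟩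
  · rintro ⟨rfl, rfl⟩; exact mul_top' _

theorem eval_prod {M : Type*} [MTLAlg M] (v : ℕ → M) (l : List Fm) :
    eval v (prod l) = ⊤ ↔ ∀ p ∈ l, eval v p = ⊤ := by
  induction l with
  | nil => simp [prod, eval]
  | cons p l ih => simp [prod, eval, mul_top_iff, ih]

section
variable {L : Type} [LinearOrder L] [BoundedOrder L] [SuccOrder L] [PredOrder L]

theorem sup_top_iff (x y : A L) : x ⊔ y = ⊤ ↔ x = ⊤ ∨ y = ⊤ := by
  rcases le_total x y with h | h
  · rw [sup_eq_right.2 h]
    refine ⟨Or.inr, ?_⟩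
    rintro (h1 | h1)
    · rw [h1] at h; exact top_le_iff.1 h
    · exact h1
  · rw [sup_eq_left.2 h]
    refine ⟨Or.inl, ?_⟩
    rintro (h1 | h1)
    · exact h1
    · rw [h1] at h; exact top_le_iff.1 h

theorem bot_ne_top : (⊥ : A L) ≠ ⊤ := by
  intro h
  rw [bot_eq, top_eq] at h
  cases h

theorem eval_disj (v : ℕ → A L) (l : List Fm) :
    eval v (disj l) = ⊤ ↔ ∃ p ∈ l, eval v p = ⊤ := by
  induction l with
  | nil => simp [disj, eval, bot_ne_top]
  | cons p l ih => simp [disj, eval, ih]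

theorem cube_le (x y : A L) (h1 : x = ⊤ → y = ⊤)
    (h2 : (rho x : A L) = ⊤ → (rho y : A L) = ⊤) : x * (x * x) ≤ y := by
  cases x <;> cases y <;>
    simp [mul_def, mul, rho, top_eq, le_def, rank, idx] at h1 h2 ⊢

end

theorem eval_rho {L L' : Type} [LinearOrder L] [BoundedOrder L] [SuccOrder L] [PredOrder L]
    [LinearOrder L'] [BoundedOrder L'] [SuccOrder L'] [PredOrder L'] (v : ℕ → A L) (p : Fm) :
    eval (fun n => (rho (v n) : A L')) p = rho (eval v p) :=
  Hom.eval (rhoHom (L := L) (L' := L')) v p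

/-- The model obtained by collapsing to Boolean values. -/
def Model.bool {S : Set ℕ} (m : Model S) : Model S :=
  { L := m.L, good := m.good, v := fun n => rho (m.v n) }

theorem Model.bool_sat {S : Set ℕ} (m : Model S) (p : Fm) :
    m.bool.sat p ↔ (rho (eval m.v p) : A m.L) = ⊤ := by
  unfold Model.sat
  change eval (fun n => (rho (m.v n) : A m.L)) p = ⊤ ↔ _
  rw [eval_rho]

theorem Model.bool_of_sat {S : Set ℕ} (m : Model S) (p : Fm) (h : m.sat p) : m.bool.sat p := by
  rw [Model.bool_sat]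
  unfold Model.sat at h
  rw [h]; rfl

theorem valid_cube {S : Set ℕ} (P : Set Fm) (t s : Fm)
    (h : ∀ m : Model S, (∀ p ∈ P, m.sat p) → m.sat t → m.sat s) (m : Model S)
    (hP : ∀ p ∈ P, m.sat p) : m.sat (.imp (fcube t) s) := by
  unfold Model.sat
  rw [eval_top_iff_imp]
  refine cube_le _ _ (fun h1 => h m hP h1) (fun h2 => ?_)
  have h3 := h m.bool (fun p hp => m.bool_of_sat p (hP p hp)) ((Model.bool_sat m t).2 h2)
  exact (Model.bool_sat m s).1 h3

theorem Deriv.mulI {S : Set ℕ} {G : Set Fm} {p q : Fm} (h1 : Deriv (AxS S) G p)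
    (h2 : Deriv (AxS S) G q) : Deriv (AxS S) G (.mul p q) := by
  have h3 : (Fm.imp p (.imp q (.mul p q))) ∈ AxS S := by
    intro m
    unfold Model.sat
    rw [eval_top_iff_imp]
    exact (MTLAlg.le_res _ _ _).2 (by rw [mul_comm]; rfl)
  exact (h2.mp (h1.mp (.ext h3)))

theorem Deriv.prodI {S : Set ℕ} {G : Set Fm} (l : List Fm) (h : ∀ p ∈ l, p ∈ G) :
    Deriv (AxS S) G (prod l) := by
  induction l with
  | nil => exact .ext (fun m => rfl)
  | cons p l ih =>
    exact Deriv.mulI (.hyp (h p (by simp))) (ih fun q hq => h q (by simp [hq]))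

theorem complete_fin {S : Set ℕ} {G : Set Fm} {q : Fm} (F : Finset Fm)
    (h : ∀ m : Model S, (∀ p ∈ F, p ∈ G → m.sat p) → m.sat q) : Deriv (AxS S) G q := by
  classical
  set l : List Fm := (F.filter (· ∈ G)).toList with hl
  have hmem : ∀ p, p ∈ l ↔ p ∈ F ∧ p ∈ G := by
    intro p; simp [hl]
  have h1 : Deriv (AxS S) G (prod l) := Deriv.prodI l fun p hp => ((hmem p).1 hp).2
  have h2 : Deriv (AxS S) G (fcube (prod l)) := Deriv.mulI h1 (Deriv.mulI h1 h1)
  have h3 : (Fm.imp (fcube (prod l)) q) ∈ AxS S := by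
    intro m
    apply valid_cube ∅ _ _ _ m (by simp)
    intro m _ hm
    apply h m
    intro p hp hpG
    exact (eval_prod m.v l).1 hm p ((hmem p).2 ⟨hp, hpG⟩)
  exact h2.mp (.ext h3)

theorem vars_prod {X : Set ℕ} (l : List Fm) (h : ∀ p ∈ l, p.vars ⊆ X) : (prod l).vars ⊆ X := by
  induction l with
  | nil => exact Set.empty_subset _
  | cons p l ih =>
    exact Set.union_subset (h p (by simp)) (ih fun q hq => h q (by simp [hq]))

theorem vars_disj {X : Set ℕ} (l : List Fm) (h : ∀ p ∈ l, p.vars ⊆ X) : (disj l).vars ⊆ X := by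
  induction l with
  | nil => exact Set.empty_subset _
  | cons p l ih =>
    exact Set.union_subset (h p (by simp)) (ih fun q hq => h q (by simp [hq]))

/-- Separation: a model of the interpolants extends, type-wise, to a model of `G`. -/
theorem exists_left {S : Set ℕ} (G : Set Fm) (X : Set ℕ) (mC : Model S)
    (hC : ∀ d : Fm, d.vars ⊆ X → Deriv (AxS S) G d → mC.sat d) :
    ∃ mB : Model S, (∀ q ∈ G, mB.sat q) ∧ ∀ q : Fm, q.vars ⊆ X → (mB.sat q ↔ mC.sat q) := by
  classical
  obtain ⟨mB, h1, h2⟩ := compactness (S := S) (G ∪ {q | q.vars ⊆ X ∧ mC.sat q})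
    {q | q.vars ⊆ X ∧ ¬ mC.sat q} (by
      intro F
      by_contra hcon
      push Not at hcon
      set tl : List Fm := (F.filter (fun q => q.vars ⊆ X ∧ mC.sat q)).toList with htl
      set nl : List Fm := (F.filter (fun q => q.vars ⊆ X ∧ ¬ mC.sat q)).toList with hnl
      have htm : ∀ p, p ∈ tl ↔ p ∈ F ∧ p.vars ⊆ X ∧ mC.sat p := by
        intro p; simp [htl]
      have hnm : ∀ p, p ∈ nl ↔ p ∈ F ∧ p.vars ⊆ X ∧ ¬ mC.sat p := by
        intro p; simp [hnl]
      have hd : Deriv (AxS S) G (.imp (fcube (prod tl)) (disj nl)) := by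
        apply complete_fin F
        intro m hm
        apply valid_cube {p | p ∈ F ∧ p ∈ G} _ _ _ m (fun p hp => hm p hp.1 hp.2)
        intro m hm htm'
        obtain ⟨p, hpF, hpN, hps⟩ := hcon m (by
          intro p hpF hp
          rcases hp with hp | hp
          · exact hm p ⟨hpF, hp⟩
          · exact (eval_prod m.v tl).1 htm' p ((htm p).2 ⟨hpF, hp.1, hp.2⟩))
        exact (eval_disj m.v nl).2 ⟨p, (hnm p).2 ⟨hpF, hpN.1, hpN.2⟩, hps⟩
      have hvp : (prod tl).vars ⊆ X := vars_prod tl fun p hp => ((htm p).1 hp).2.1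
      have hvd : (disj nl).vars ⊆ X := vars_disj nl fun p hp => ((hnm p).1 hp).2.1
      have hs := hC (.imp (fcube (prod tl)) (disj nl)) (Set.union_subset (Set.union_subset hvp (Set.union_subset hvp hvp)) hvd) hd
      have ht : mC.sat (prod tl) := (eval_prod mC.v tl).2 fun p hp => ((htm p).1 hp).2.2
      unfold Model.sat at hs ht
      rw [eval_top_iff_imp] at hs
      have hc : eval mC.v (fcube (prod tl)) = ⊤ := by
        change eval mC.v (prod tl) * (eval mC.v (prod tl) * eval mC.v (prod tl)) = ⊤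
        rw [ht, mul_top', mul_top']
      rw [hc, top_le_iff, eval_disj] at hs
      obtain ⟨p, hp1, hp2⟩ := hs
      exact ((hnm p).1 hp1).2.2 hp2)
  refine ⟨mB, fun q hq => h1 q (Or.inl hq), fun q hq => ⟨fun h => ?_, fun h => ?_⟩⟩
  · by_contra hcon
    exact h2 q ⟨hq, hcon⟩ h
  · exact h1 q (Or.inr ⟨hq, h⟩)



open A

theorem vars_fnot {X : Set ℕ} {p : Fm} (h : p.vars ⊆ X) : (fnot p).vars ⊆ X :=
  Set.union_subset h (Set.empty_subset _)
theorem vars_mul {X : Set ℕ} {p q : Fm} (h : p.vars ⊆ X) (h' : q.vars ⊆ X) :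
    (Fm.mul p q).vars ⊆ X := Set.union_subset h h'
theorem vars_imp {X : Set ℕ} {p q : Fm} (h : p.vars ⊆ X) (h' : q.vars ⊆ X) :
    (Fm.imp p q).vars ⊆ X := Set.union_subset h h'
theorem vars_or {X : Set ℕ} {p q : Fm} (h : p.vars ⊆ X) (h' : q.vars ⊆ X) :
    (Fm.or p q).vars ⊆ X := Set.union_subset h h'
theorem vars_fcube {X : Set ℕ} {p : Fm} (h : p.vars ⊆ X) : (fcube p).vars ⊆ X :=
  vars_mul h (vars_mul h h)
theorem vars_fb {X : Set ℕ} {p : Fm} (h : p.vars ⊆ X) : (fb p).vars ⊆ X :=
  vars_or (vars_fcube h) (vars_fcube (vars_fnot h))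
theorem vars_fz {X : Set ℕ} {p : Fm} (h : p.vars ⊆ X) : (fz p).vars ⊆ X :=
  vars_fnot (vars_fb h)
theorem vars_fh {X : Set ℕ} {p : Fm} (h : p.vars ⊆ X) : (fh p).vars ⊆ X :=
  vars_fnot (vars_fz h)
theorem vars_ff {X : Set ℕ} {p : Fm} (h : p.vars ⊆ X) : (ff p).vars ⊆ X :=
  vars_imp (vars_fh h) (vars_fb h)
theorem vars_fg {X : Set ℕ} {p : Fm} (h : p.vars ⊆ X) : (fg p).vars ⊆ X :=
  vars_imp (vars_ff h) (vars_fb h)
theorem vars_flt {X : Set ℕ} {p : Fm} (h : p.vars ⊆ X) : (flt p).vars ⊆ X :=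
  vars_mul (vars_ff h) (vars_fz h)
theorem vars_fs {X : Set ℕ} {p q : Fm} (h : p.vars ⊆ X) (h' : q.vars ⊆ X) :
    (fs p q).vars ⊆ X := vars_mul (vars_ff h) (vars_imp (vars_fg h) h')
theorem vars_fp {X : Set ℕ} {p q : Fm} (h : p.vars ⊆ X) (h' : q.vars ⊆ X) :
    (fp p q).vars ⊆ X := vars_mul (vars_fg h) (vars_imp (vars_ff h) h')

section
variable {L : Type} [LinearOrder L] [BoundedOrder L] [SuccOrder L] [PredOrder L]

theorem le_lo_top {x : A L} (h : x ≤ lo ⊤) : ∃ i, x = lo i := by
  cases x with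
  | lo i => exact ⟨i, rfl⟩
  | _ => simp [le_def, rank, idx] at h

theorem le_hi_top {x : A L} (h : x ≤ hi ⊤) (h' : ¬ x ≤ lo ⊤) : ∃ i, x = hi i := by
  cases x with
  | lo i => simp [le_def, rank, idx] at h'
  | hi i => exact ⟨i, rfl⟩
  | _ => simp [le_def, rank, idx] at h

theorem lo_le_lo (i j : L) : (lo i : A L) ≤ lo j ↔ i ≤ j := by
  simp [le_def, rank, idx]

end

theorem amalgam {S : Set ℕ} (mB mC : Model S) (X : Set ℕ)
    (hX : ∀ q : Fm, q.vars ⊆ X → (mB.sat q ↔ mC.sat q)) (n0 : ℕ) (hn0 : n0 ∈ X)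
    (h1 : mC.v n0 ≠ ⊤) (h0 : mC.v n0 ≠ ⊥) :
    ∃ (P : PIso mB.L mC.L), ∀ q : Fm, q.vars ⊆ X →
      map (AM.embL P).toFun (eval mB.v q) = map (AM.embR P).toFun (eval mC.v q) := by
  have hle : ∀ q q' : Fm, q.vars ⊆ X → q'.vars ⊆ X →
      (eval mB.v q ≤ eval mB.v q' ↔ eval mC.v q ≤ eval mC.v q') := by
    intro q q' hq hq'
    rw [← eval_top_iff_imp, ← eval_top_iff_imp]
    exact hX _ (vars_imp hq hq')
  have heq : ∀ q q' : Fm, q.vars ⊆ X → q'.vars ⊆ X →
      (eval mB.v q = eval mB.v q' → eval mC.v q = eval mC.v q') := by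
    intro q q' hq hq' h
    exact le_antisymm ((hle _ _ hq hq').1 h.le) ((hle _ _ hq' hq).1 h.ge)
  have hv : (Fm.var n0).vars ⊆ X := by
    intro m hm
    rw [Set.mem_singleton_iff.1 hm]; exact hn0
  have hLB := mB.good.1
  have hLC := mC.good.1
  have hC1 : eval mC.v (.var n0) ≠ t := h1
  have hC0 : eval mC.v (.var n0) ≠ lo ⊥ := h0
  have hB1 : eval mB.v (.var n0) ≠ t := by
    intro h
    exact h1 ((hX _ hv).1 h)
  have hB0 : eval mB.v (.var n0) ≠ lo ⊥ := by
    intro h
    apply h0
    have h2 : mB.sat (fnot (.var n0)) := by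
      unfold Model.sat fnot
      rw [eval_top_iff_imp, h]; exact le_rfl
    have h3 := (hX _ (vars_fnot hv)).1 h2
    unfold Model.sat fnot at h3
    rw [eval_top_iff_imp] at h3
    exact le_bot_iff.1 h3
  obtain ⟨P, hPR⟩ : ∃ P : PIso mB.L mC.L, ∀ i j, P.R i j ↔
      ∃ q : Fm, q.vars ⊆ X ∧ eval mB.v q = lo i ∧ eval mC.v q = lo j := by
    refine ⟨{ R := fun i j => ∃ q : Fm, q.vars ⊆ X ∧ eval mB.v q = lo i ∧ eval mC.v q = lo j
              bot := ⟨.zero, Set.empty_subset _, rfl, rfl⟩
              top := ⟨flt (.var n0), vars_flt hv, eval_flt hLB hB1 hB0, eval_flt hLC hC1 hC0⟩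
              succ := ?_
              pred := ?_
              le_iff := ?_ }, fun i j => Iff.rfl⟩
    · rintro i j ⟨q, hq, hqi, hqj⟩
      exact ⟨fs (.var n0) q, vars_fs hv hq, eval_fs hLB hB1 hB0 hqi, eval_fs hLC hC1 hC0 hqj⟩
    · rintro i j ⟨q, hq, hqi, hqj⟩
      exact ⟨fp (.var n0) q, vars_fp hv hq, eval_fp hLB hB1 hB0 hqi, eval_fp hLC hC1 hC0 hqj⟩
    · rintro i j i' j' ⟨q, hq, hqi, hqj⟩ ⟨q', hq', hqi', hqj'⟩
      have := hle q q' hq hq'
      rw [hqi, hqi', hqj, hqj', lo_le_lo, lo_le_lo] at this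
      exact this
  refine ⟨P, ?_⟩
  · intro q hq
    cases hB : eval mB.v q with
    | lo i =>
      have h2 : eval mC.v q ≤ lo ⊤ := by
        rw [← eval_flt hLC hC1 hC0, ← hle _ _ hq (vars_flt hv), hB, eval_flt hLB hB1 hB0, lo_le_lo]
        exact le_top
      obtain ⟨j, hj⟩ := le_lo_top h2
      rw [hj]
      simp only [map]
      exact congrArg lo (AM.fromR_of P ((hPR i j).2 ⟨q, hq, hB, hj⟩)).symm
    | hi i =>
      have h2 : eval mC.v q ≤ hi ⊤ := by
        rw [← eval_fz hC1 hC0, ← hle _ _ hq (vars_fz hv), hB, eval_fz hB1 hB0]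
        simp [le_def, rank, idx]
      have h3 : ¬ eval mC.v q ≤ lo ⊤ := by
        rw [← eval_flt hLC hC1 hC0, ← hle _ _ hq (vars_flt hv), hB, eval_flt hLB hB1 hB0]
        simp [le_def, rank]
      obtain ⟨j, hj⟩ := le_hi_top h2 h3
      rw [hj]
      simp only [map]
      have h4 : P.R i j := by
        rw [hPR]
        refine ⟨.mul (ff (.var n0)) q, vars_mul (vars_ff hv) hq, ?_, ?_⟩
        · change mul (eval mB.v (ff (.var n0))) (eval mB.v q) = _
          rw [eval_ff hLB hB1 hB0, hB]; rfl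
        · change mul (eval mC.v (ff (.var n0))) (eval mC.v q) = _
          rw [eval_ff hLC hC1 hC0, hj]; rfl
      exact congrArg hi (AM.fromR_of P h4).symm
    | b =>
      have := heq q (fb (.var n0)) hq (vars_fb hv) (by rw [hB, eval_fb hB1 hB0])
      rw [this, eval_fb hC1 hC0]; rfl
    | h =>
      have := heq q (fh (.var n0)) hq (vars_fh hv) (by rw [hB, eval_fh hLB hB1 hB0])
      rw [this, eval_fh hLC hC1 hC0]; rfl
    | g =>
      have := heq q (fg (.var n0)) hq (vars_fg hv) (by rw [hB, eval_fg hLB hB1 hB0])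
      rw [this, eval_fg hLC hC1 hC0]; rfl
    | f =>
      have := heq q (ff (.var n0)) hq (vars_ff hv) (by rw [hB, eval_ff hLB hB1 hB0])
      rw [this, eval_ff hLC hC1 hC0]; rfl
    | t =>
      have := heq q .one hq (Set.empty_subset _) (by rw [hB]; rfl)
      rw [this]; rfl

theorem vars_sub_varsOf {G : Set Fm} {q : Fm} (hq : q ∈ G) : q.vars ⊆ varsOf G :=
  fun _ hn => ⟨q, hq, hn⟩

/-- Every logic of the family has the deductive interpolation property. -/
theorem dipS (S : Set ℕ) : DIP (Deriv (AxS S)) := by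
  classical
  intro G p hp
  set X : Set ℕ := varsOf G ∩ p.vars with hXdef
  refine ⟨{d | d.vars ⊆ X ∧ Deriv (AxS S) G d}, ?_, fun d hd => hd.2, ?_⟩
  · rintro n ⟨d, hd, hn⟩
    exact hd.1 hn
  · by_contra hcon
    obtain ⟨mC, hC1, hC2⟩ := compactness (S := S) {d | d.vars ⊆ X ∧ Deriv (AxS S) G d} {p} (by
      intro F
      by_contra h
      push Not at h
      apply hcon
      apply complete_fin F
      intro m hm
      obtain ⟨q, hq, hq1, hq2⟩ := h m hm
      rw [Set.mem_singleton_iff.1 hq1] at hq2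
      exact hq2)
    have hCp : ¬ mC.sat p := hC2 p rfl
    obtain ⟨mB, hB1, hB2⟩ := exists_left G X mC (fun d hd hd' => hC1 d ⟨hd, hd'⟩)
    by_cases hX : ∀ n ∈ X, mC.v n = ⊤ ∨ mC.v n = ⊥
    · -- Boolean case
      have hag : ∀ n ∈ X, (rho (mB.v n) : A mC.L) = mC.v n := by
        intro n hn
        have hv : (Fm.var n).vars ⊆ X := by
          intro m hm
          rw [Set.mem_singleton_iff.1 hm]; exact hn
        rcases hX n hn with h | h
        · have h2 : mB.sat (.var n) := (hB2 _ hv).2 h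
          have h3 : mB.v n = ⊤ := h2
          rw [h, h3]; rfl
        · have h2 : mC.sat (fnot (.var n)) := by
            unfold Model.sat fnot
            rw [eval_top_iff_imp]; exact h.le
          have h3 := (hB2 _ (vars_fnot hv)).2 h2
          unfold Model.sat fnot at h3
          rw [eval_top_iff_imp] at h3
          have h4 : mB.v n = ⊥ := le_bot_iff.1 h3
          rw [h, h4]; rfl
      let mD : Model S :=
        { L := mC.L, good := mC.good
          v := fun n => if n ∈ varsOf G then rho (mB.v n) else mC.v n }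
      have hDG : ∀ q ∈ G, mD.sat q := by
        intro q hq
        have h2 : eval mD.v q = eval (fun n => (rho (mB.v n) : A mC.L)) q := by
          apply eval_congr
          intro n hn
          exact if_pos (vars_sub_varsOf hq hn)
        unfold Model.sat
        rw [h2, eval_rho]
        have h3 : eval mB.v q = ⊤ := hB1 q hq
        rw [h3]; rfl
      have hDp : eval mD.v p = eval mC.v p := by
        apply eval_congr
        intro n hn
        by_cases hnG : n ∈ varsOf G
        · exact (if_pos hnG).trans (hag n ⟨hnG, hn⟩)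
        · exact if_neg hnG
      apply hCp
      have h4 := soundS hp mD hDG
      unfold Model.sat at h4 ⊢
      rw [← hDp]; exact h4
    · -- proper case
      push Not at hX
      obtain ⟨n0, hn0, hn1, hn2⟩ := hX
      obtain ⟨P, hP⟩ := amalgam mB mC X hB2 n0 hn0 hn1 hn2
      let mD : Model S :=
        { L := AM P
          good := Good.of_emb (AM.embL P) mB.good
          v := fun n => if n ∈ varsOf G then map (AM.embL P).toFun (mB.v n)
            else map (AM.embR P).toFun (mC.v n) }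
      have hDG : ∀ q ∈ G, mD.sat q := by
        intro q hq
        have h2 : eval mD.v q = eval (fun n => map (AM.embL P).toFun (mB.v n)) q := by
          apply eval_congr
          intro n hn
          exact if_pos (vars_sub_varsOf hq hn)
        unfold Model.sat
        rw [h2]
        refine (Hom.eval (mapHom (AM.embL P)) mB.v q).trans ?_
        have h3 : eval mB.v q = ⊤ := hB1 q hq
        rw [h3]; rfl
      have hDp : eval mD.v p = map (AM.embR P).toFun (eval mC.v p) := by
        refine Eq.trans ?_ (Hom.eval (mapHom (AM.embR P)) mC.v p)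
        apply eval_congr
        intro n hn
        by_cases hnG : n ∈ varsOf G
        · refine (if_pos hnG).trans ?_
          have hv : (Fm.var n).vars ⊆ X := by
            intro m hm
            rw [Set.mem_singleton_iff.1 hm]; exact ⟨hnG, hn⟩
          exact hP (.var n) hv
        · exact if_neg hnG
      apply hCp
      have h4 := soundS hp mD hDG
      unfold Model.sat at h4 ⊢
      rw [hDp] at h4
      have h5 : map (AM.embR P).toFun (⊤ : A mC.L) ≤ map (AM.embR P).toFun (eval mC.v p) := by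
        rw [h4]; exact le_top
      exact top_le_iff.1 ((map_le_iff (AM.embR P) _ _).1 h5)



open A

/-! ### The logics are pairwise different -/

def kap (x : Fm) : ℕ → Fm
  | 0 => .zero
  | k + 1 => fs x (kap x k)

def chi (n : ℕ) : Fm :=
  .or (.imp (flt (.var 0)) (kap (.var 0) (n + 1)))
    (.imp (fcube (.imp (flt (.var 0)) (kap (.var 0) (n + 2)))) (fb (.var 0)))

section
variable {L : Type} [LinearOrder L] [BoundedOrder L] [SuccOrder L] [PredOrder L]

theorem eval_kap {v : ℕ → A L} {p : Fm} (hL : Order.pred (⊤ : L) ≠ ⊥)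
    (h1 : eval v p ≠ t) (h0 : eval v p ≠ lo ⊥) (k : ℕ) :
    eval v (kap p k) = lo (Order.succ^[k] ⊥) := by
  induction k with
  | zero => rfl
  | succ k ih =>
    rw [Function.iterate_succ_apply']
    exact eval_fs hL h1 h0 ih

theorem imp_lo_lo (i j : L) (h : ¬ i ≤ j) : imp (lo i) (lo j) = f := by
  simp [imp, lo_le_lo, h, imp']

theorem eval_chi_eq (v : ℕ → A L) (n : ℕ) : eval v (chi n) =
    imp (eval v (flt (.var 0))) (eval v (kap (.var 0) (n + 1))) ⊔
    imp (imp (eval v (flt (.var 0))) (eval v (kap (.var 0) (n + 2))) *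
      (imp (eval v (flt (.var 0))) (eval v (kap (.var 0) (n + 2))) *
        imp (eval v (flt (.var 0))) (eval v (kap (.var 0) (n + 2))))) (eval v (fb (.var 0))) :=
  rfl

theorem imp_top (x : A L) : imp x ⊤ = ⊤ := (res_top_iff x ⊤).2 le_top

theorem eval_chi {v : ℕ → A L} (hL : Order.pred (⊤ : L) ≠ ⊥) (n : ℕ) :
    eval v (chi n) ≠ ⊤ → Order.succ^[n + 2] (⊥ : L) = ⊤ ∧ Order.succ^[n + 1] (⊥ : L) ≠ ⊤ := by
  intro hne
  by_cases h1 : eval v (.var 0) = t
  · exfalso
    apply hne
    have h2 : eval v (fb (.var 0)) = ⊤ := by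
      change (eval v (.var 0) * (eval v (.var 0) * eval v (.var 0))) ⊔ _ = _
      rw [h1]; exact top_sup_eq _
    rw [eval_chi_eq, h2, imp_top]; exact sup_top_eq _
  by_cases h0 : eval v (.var 0) = lo ⊥
  · exfalso
    apply hne
    have h2 : eval v (fb (.var 0)) = ⊤ := by
      change _ ⊔ (imp (eval v (.var 0)) (lo ⊥) *
        (imp (eval v (.var 0)) (lo ⊥) * imp (eval v (.var 0)) (lo ⊥))) = _
      rw [h0]
      have : imp (lo ⊥ : A L) (lo ⊥) = ⊤ := by simp [imp, top_eq]
      rw [this, mul_top', mul_top']; exact sup_top_eq _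
    rw [eval_chi_eq, h2, imp_top]; exact sup_top_eq _
  have e1 : eval v (flt (.var 0)) = lo ⊤ := eval_flt hL h1 h0
  have e2 := eval_kap hL h1 h0 (n + 1)
  have e3 := eval_kap hL h1 h0 (n + 2)
  have e4 : eval v (fb (.var 0)) = b := eval_fb h1 h0
  constructor
  · by_contra hcon
    apply hne
    rw [eval_chi_eq, e1, e3, e4, imp_lo_lo _ _ (fun h => hcon (top_le_iff.1 h))]
    have : imp (f * (f * f) : A L) b = ⊤ := by
      simp [mul_def, mul, imp, top_eq]
    rw [this]; exact sup_top_eq _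
  · intro hcon
    apply hne
    rw [eval_chi_eq, e1, e2, hcon]
    have : imp (lo ⊤ : A L) (lo ⊤) = ⊤ := by simp [imp, top_eq]
    rw [this]; exact top_sup_eq _

theorem eval_chi' {v : ℕ → A L} (hL : Order.pred (⊤ : L) ≠ ⊥) (n : ℕ)
    (hv : v 0 = b) (h2 : Order.succ^[n + 2] (⊥ : L) = ⊤) (h3 : Order.succ^[n + 1] (⊥ : L) ≠ ⊤) :
    eval v (chi n) ≠ ⊤ := by
  have h1 : eval v (.var 0) ≠ t := by
    change v 0 ≠ t
    rw [hv]; simp
  have h0 : eval v (.var 0) ≠ lo ⊥ := by
    change v 0 ≠ _
    rw [hv]; simp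
  have e1 : eval v (flt (.var 0)) = lo ⊤ := eval_flt hL h1 h0
  have e2 := eval_kap hL h1 h0 (n + 1)
  have e3 := eval_kap hL h1 h0 (n + 2)
  have e4 : eval v (fb (.var 0)) = b := eval_fb h1 h0
  rw [eval_chi_eq, e1, e2, e3, e4, h2, imp_lo_lo _ _ (fun h => h3 (top_le_iff.1 h))]
  have h5 : imp (lo ⊤ : A L) (lo ⊤) = t := by simp [imp]
  have h6 : imp (t * (t * t) : A L) b = b := by
    simp [mul_def, mul, imp, imp', le_def, rank]
  rw [h5, h6]
  have h7 : (b : A L) ≤ f := by simp [le_def, rank]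
  rw [sup_eq_left.2 h7]
  intro h; cases h

end

theorem fin_iter (n k : ℕ) (hk : k ≤ n + 2) :
    Order.succ^[k] (⊥ : Fin (n + 3)) = ⟨k, by omega⟩ := by
  induction k with
  | zero => rfl
  | succ k ih =>
    rw [Function.iterate_succ_apply', ih (by omega)]
    exact Fin.orderSucc_castSucc ⟨k, by omega⟩

theorem fin_iter' (n k : ℕ) : Order.succ^[n + 2 + k] (⊥ : Fin (n + 3)) = ⊤ := by
  induction k with
  | zero => exact fin_iter n (n + 2) le_rfl
  | succ k ih => rw [← Nat.add_assoc, Function.iterate_succ_apply', ih, Order.succ_top]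

theorem good_fin {S : Set ℕ} {n : ℕ} (hn : n ∈ S) : Good S (Fin (n + 3)) := by
  refine ⟨?_, ?_⟩
  · have h : Order.pred (⊤ : Fin (n + 3)) = Fin.castSucc ⟨n + 1, by omega⟩ :=
      Fin.orderPred_succ (⟨n + 1, by omega⟩ : Fin (n + 2))
    rw [h]
    intro h2
    have h3 : n + 1 = 0 := congrArg Fin.val h2
    omega
  · intro k h1 h2
    rcases lt_trichotomy k n with h | h | h
    · rw [fin_iter n (k + 2) (by omega)] at h1
      have h3 : k + 2 = n + 2 := congrArg Fin.val h1
      omega
    · rw [h]; exact hn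
    · exfalso
      apply h2
      obtain ⟨j, rfl⟩ : ∃ j, k = n + 1 + j := ⟨k - (n + 1), by omega⟩
      rw [show n + 1 + j + 1 = n + 2 + j by omega]
      exact fin_iter' n j

theorem chi_mem_iff (S : Set ℕ) (n : ℕ) : chi n ∈ AxS S ↔ n ∉ S := by
  constructor
  · intro h hn
    have h1 := h { L := Fin (n + 3), good := good_fin hn, v := fun _ => b }
    refine eval_chi' (good_fin hn).1 n rfl (fin_iter' n 0) ?_ h1
    rw [fin_iter n (n + 1) (by omega)]
    intro h2
    have h3 : n + 1 = n + 2 := congrArg Fin.val h2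
    omega
  · intro hn m
    by_contra hcon
    obtain ⟨h1, h2⟩ := eval_chi m.good.1 n hcon
    exact hn (m.good.2 n h1 h2)

theorem deriv_empty_iff (S : Set ℕ) (p : Fm) : Deriv (AxS S) ∅ p ↔ p ∈ AxS S :=
  ⟨fun h m => soundS h m (by simp), fun h => .ext h⟩

theorem family_injective : Function.Injective fun S : Set ℕ => Deriv (AxS S) := by
  intro S T h
  ext n
  have h1 : Deriv (AxS S) ∅ (chi n) ↔ Deriv (AxS T) ∅ (chi n) := by
    simp only at h
    rw [h]
  rw [deriv_empty_iff, deriv_empty_iff, chi_mem_iff, chi_mem_iff, not_iff_not] at h1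
  exact h1

/-! ### Counting -/

def Fm.code : Fm → ℕ
  | .var n => Nat.pair 0 n
  | .zero => Nat.pair 1 0
  | .one => Nat.pair 2 0
  | .and p q => Nat.pair 3 (Nat.pair p.code q.code)
  | .or p q => Nat.pair 4 (Nat.pair p.code q.code)
  | .mul p q => Nat.pair 5 (Nat.pair p.code q.code)
  | .imp p q => Nat.pair 6 (Nat.pair p.code q.code)

theorem Fm.code_inj : Function.Injective Fm.code := by
  intro p
  induction p with
  | var n => intro q h; cases q <;> simp_all [Fm.code, Nat.pair_eq_pair]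
  | zero => intro q h; cases q <;> simp_all [Fm.code, Nat.pair_eq_pair]
  | one => intro q h; cases q <;> simp_all [Fm.code, Nat.pair_eq_pair]
  | and a b iha ihb =>
    intro q h
    cases q with
    | and c d =>
      simp only [Fm.code, Nat.pair_eq_pair, true_and] at h
      rw [iha h.1, ihb h.2]
    | _ => simp [Fm.code, Nat.pair_eq_pair] at h
  | or a b iha ihb =>
    intro q h
    cases q with
    | or c d =>
      simp only [Fm.code, Nat.pair_eq_pair, true_and] at h
      rw [iha h.1, ihb h.2]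
    | _ => simp [Fm.code, Nat.pair_eq_pair] at h
  | mul a b iha ihb =>
    intro q h
    cases q with
    | mul c d =>
      simp only [Fm.code, Nat.pair_eq_pair, true_and] at h
      rw [iha h.1, ihb h.2]
    | _ => simp [Fm.code, Nat.pair_eq_pair] at h
  | imp a b iha ihb =>
    intro q h
    cases q with
    | imp c d =>
      simp only [Fm.code, Nat.pair_eq_pair, true_and] at h
      rw [iha h.1, ihb h.2]
    | _ => simp [Fm.code, Nat.pair_eq_pair] at h

theorem mk_setFm : Cardinal.mk (Set Fm) ≤ Cardinal.continuum := by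
  have h1 : Cardinal.mk Fm ≤ Cardinal.aleph0 := by
    have := Cardinal.mk_le_of_injective Fm.code_inj
    rwa [Cardinal.mk_nat] at this
  rw [Cardinal.mk_set, ← Cardinal.two_power_aleph0]
  exact Cardinal.power_le_power_left two_ne_zero h1

/-- The set of all axiomatic extensions of MTL with the deductive interpolation property. -/
def DIPExtensions : Set (Set Fm → Fm → Prop) := {C | IsAxiomaticExtension C ∧ DIP C}

theorem mk_dipExtensions : Cardinal.mk DIPExtensions = Cardinal.continuum := by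
  apply le_antisymm
  · have h : DIPExtensions ⊆ Set.range (fun Ax : Set Fm => Deriv Ax) := by
      rintro C ⟨⟨Ax, _, rfl⟩, _⟩
      exact ⟨Ax, rfl⟩
    exact (Cardinal.mk_le_mk_of_subset h).trans (Cardinal.mk_range_le.trans mk_setFm)
  · have h : Function.Injective
        (fun S : Set ℕ => (⟨Deriv (AxS S), ⟨AxS S, AxS_subst S, rfl⟩, dipS S⟩ : DIPExtensions)) := by
      intro S T h
      exact family_injective (congrArg Subtype.val h)
    have := Cardinal.mk_le_of_injective h
    rwa [Cardinal.mk_set, Cardinal.mk_nat, Cardinal.two_power_aleph0] at this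

theorem uncountable_dipExtensions : ¬ DIPExtensions.Countable := by
  intro h
  have h1 : Cardinal.mk DIPExtensions ≤ Cardinal.aleph0 := h.le_aleph0
  rw [mk_dipExtensions] at h1
  exact absurd h1 (not_le.2 Cardinal.aleph0_lt_continuum)

end Pool.Agent.Lib.MP_6be952_lc
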